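import Mathlib

/-! Counting on the cube of subsets of a finite set. -/

namespace Pool.Agent.Helper42.RP

open Finset

/-- Proportion of the subsets of `T` satisfying `φ`. -/
noncomputable def cp (T : Finset ℕ) (φ : Finset ℕ → Prop) : ℝ :=
  ((@Finset.filter _ φ (fun _ => Classical.propDecidable _) T.powerset).card : ℝ) / 2 ^ T.card

lemma cp_eq (T : Finset ℕ) (φ : Finset ℕ → Prop) [DecidablePred φ] :
    cp T φ = ((T.powerset.filter φ).card : ℝ) / 2 ^ T.card := by
  unfold cp; congr

lemma cp_nonneg (T : Finset ℕ) (φ : Finset ℕ → Prop) : 0 ≤ cp T φ := by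
  unfold cp; positivity

lemma cp_mono (T : Finset ℕ) {φ ψ : Finset ℕ → Prop}
    (h : ∀ U, U ⊆ T → φ U → ψ U) : cp T φ ≤ cp T ψ := by
  classical
  rw [cp_eq, cp_eq]
  apply div_le_div_of_nonneg_right _ (by positivity)
  norm_cast
  apply card_le_card
  intro U hU
  rw [mem_filter, mem_powerset] at hU ⊢
  exact ⟨hU.1, h U hU.1 hU.2⟩

lemma cp_congr (T : Finset ℕ) {φ ψ : Finset ℕ → Prop}
    (h : ∀ U, U ⊆ T → (φ U ↔ ψ U)) : cp T φ = cp T ψ :=
  le_antisymm (cp_mono T fun U hU => (h U hU).1) (cp_mono T fun U hU => (h U hU).2)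

lemma cp_true (T : Finset ℕ) : cp T (fun _ => True) = 1 := by
  classical
  rw [cp_eq]
  simp [card_powerset]

lemma cp_le_one (T : Finset ℕ) (φ : Finset ℕ → Prop) : cp T φ ≤ 1 := by
  rw [← cp_true T]; exact cp_mono T fun _ _ _ => trivial

lemma cp_or (T : Finset ℕ) (φ ψ : Finset ℕ → Prop) :
    cp T (fun U => φ U ∨ ψ U) ≤ cp T φ + cp T ψ := by
  classical
  rw [cp_eq, cp_eq, cp_eq]
  rw [← add_div]
  apply div_le_div_of_nonneg_right _ (by positivity)
  norm_cast
  rw [filter_or]
  exact card_union_le _ _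

lemma inter_union_left' {A B U : Finset ℕ} (hU : U ⊆ A ∪ B) : (U ∩ A) ∪ (U ∩ B) = U := by
  rw [← inter_union_distrib_left]; exact inter_eq_left.2 hU

/-- Overlap bound. -/
lemma cp_overlap (A B : Finset ℕ) (φ ψ : Finset ℕ → Prop) :
    cp (A ∪ B) (fun U => φ (U ∩ A) ∧ ψ (U ∩ B)) ≤ 2 ^ (A ∩ B).card * cp A φ * cp B ψ := by
  classical
  rw [cp_eq, cp_eq, cp_eq]
  have hinj : (((A ∪ B).powerset.filter fun U => φ (U ∩ A) ∧ ψ (U ∩ B)).card : ℝ) ≤
      ((A.powerset.filter φ).card : ℝ) * (B.powerset.filter ψ).card := by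
    norm_cast
    rw [← card_product]
    apply card_le_card_of_injOn (fun U => (U ∩ A, U ∩ B))
    · intro U hU
      simp only [coe_filter, mem_powerset, Set.mem_ofPred_eq] at hU
      simp only [coe_product, Set.mem_prod, coe_filter, mem_powerset, Set.mem_ofPred_eq]
      exact ⟨⟨inter_subset_right, hU.2.1⟩, ⟨inter_subset_right, hU.2.2⟩⟩
    · intro U hU V hV h
      simp only [coe_filter, mem_powerset, Set.mem_ofPred_eq] at hU hV
      simp only [Prod.mk.injEq] at h
      rw [← inter_union_left' hU.1, ← inter_union_left' hV.1, h.1, h.2]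
  have hc : (2 : ℝ) ^ (A ∪ B).card * 2 ^ (A ∩ B).card = 2 ^ A.card * 2 ^ B.card := by
    rw [← pow_add, ← pow_add, card_union_add_card_inter]
  rw [div_le_iff₀ (by positivity)]
  calc _ ≤ ((A.powerset.filter φ).card : ℝ) * (B.powerset.filter ψ).card := hinj
    _ = 2 ^ (A ∩ B).card * (((A.powerset.filter φ).card : ℝ) / 2 ^ A.card) *
        (((B.powerset.filter ψ).card : ℝ) / 2 ^ B.card) * 2 ^ (A ∪ B).card := by
        field_simp
        linear_combination (-((A.powerset.filter φ).card : ℝ) * (B.powerset.filter ψ).card) * hc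

/-- Independence for disjoint sets. -/
lemma cp_indep (A B : Finset ℕ) (hd : Disjoint A B) (φ ψ : Finset ℕ → Prop) :
    cp (A ∪ B) (fun U => φ (U ∩ A) ∧ ψ (U ∩ B)) = cp A φ * cp B ψ := by
  classical
  rw [cp_eq, cp_eq, cp_eq]
  have hbij : ((A ∪ B).powerset.filter fun U => φ (U ∩ A) ∧ ψ (U ∩ B)).card =
      (A.powerset.filter φ).card * (B.powerset.filter ψ).card := by
    rw [← card_product]
    apply card_nbij' (fun U => (U ∩ A, U ∩ B)) (fun V => V.1 ∪ V.2)
    · intro U hU
      simp only [coe_filter, mem_powerset, Set.mem_ofPred_eq] at hU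
      simp only [coe_product, Set.mem_prod, coe_filter, mem_powerset, Set.mem_ofPred_eq]
      exact ⟨⟨inter_subset_right, hU.2.1⟩, ⟨inter_subset_right, hU.2.2⟩⟩
    · intro V hV
      simp only [coe_product, Set.mem_prod, coe_filter, mem_powerset, Set.mem_ofPred_eq] at hV
      simp only [coe_filter, mem_powerset, Set.mem_ofPred_eq]
      have h1 : (V.1 ∪ V.2) ∩ A = V.1 := by
        ext x; simp only [mem_inter, mem_union]
        constructor
        · rintro ⟨h | h, hA⟩
          · exact h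
          · exact absurd (hV.2.1 h) (disjoint_left.1 hd hA)
        · intro h; exact ⟨Or.inl h, hV.1.1 h⟩
      have h2 : (V.1 ∪ V.2) ∩ B = V.2 := by
        ext x; simp only [mem_inter, mem_union]
        constructor
        · rintro ⟨h | h, hB⟩
          · exact absurd hB (disjoint_left.1 hd (hV.1.1 h))
          · exact h
        · intro h; exact ⟨Or.inr h, hV.2.1 h⟩
      rw [h1, h2]
      exact ⟨union_subset_union hV.1.1 hV.2.1, hV.1.2, hV.2.2⟩
    · intro U hU
      simp only [coe_filter, mem_powerset, Set.mem_ofPred_eq] at hU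
      exact inter_union_left' hU.1
    · intro V hV
      simp only [coe_product, Set.mem_prod, coe_filter, mem_powerset, Set.mem_ofPred_eq] at hV
      ext x
      · simp only [mem_inter, mem_union]
        constructor
        · rintro ⟨h | h, hA⟩
          · exact h
          · exact absurd (hV.2.1 h) (disjoint_left.1 hd hA)
        · intro h; exact ⟨Or.inl h, hV.1.1 h⟩
      · simp only [mem_inter, mem_union]
        constructor
        · rintro ⟨h | h, hB⟩
          · exact absurd hB (disjoint_left.1 hd (hV.1.1 h))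
          · exact h
        · intro h; exact ⟨Or.inr h, hV.2.1 h⟩
  rw [hbij, card_union_of_disjoint hd, pow_add]
  push_cast
  rw [div_mul_div_comm]

/-- Extension to a larger set. -/
lemma cp_ext {A T : Finset ℕ} (h : A ⊆ T) (φ : Finset ℕ → Prop) :
    cp T (fun U => φ (U ∩ A)) = cp A φ := by
  have h1 := cp_indep A (T \ A) disjoint_sdiff φ (fun _ => True)
  rw [cp_true, mul_one, union_sdiff_of_subset h] at h1
  rw [← h1]
  apply cp_congr
  intro U _
  simp

/-- Complement symmetry. -/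
lemma cp_compl (T : Finset ℕ) (φ : Finset ℕ → Prop) :
    cp T (fun U => φ (T \ U)) = cp T φ := by
  classical
  rw [cp_eq, cp_eq]
  congr 2
  apply card_nbij' (fun U => T \ U) (fun U => T \ U)
  · intro U hU
    simp only [coe_filter, mem_powerset, Set.mem_ofPred_eq] at hU ⊢
    exact ⟨sdiff_subset, hU.2⟩
  · intro U hU
    simp only [coe_filter, mem_powerset, Set.mem_ofPred_eq] at hU ⊢
    refine ⟨sdiff_subset, ?_⟩
    rw [Finset.sdiff_sdiff_eq_self hU.1]; exact hU.2
  · intro U hU
    simp only [coe_filter, mem_powerset, Set.mem_ofPred_eq] at hU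
    exact Finset.sdiff_sdiff_eq_self hU.1
  · intro U hU
    simp only [coe_filter, mem_powerset, Set.mem_ofPred_eq] at hU
    exact Finset.sdiff_sdiff_eq_self hU.1

/-- The symmetric half. -/
lemma cp_half (T : Finset ℕ) (w : ℕ → ℝ) :
    1 / 2 ≤ cp T (fun U => (1 / 2) * ∑ p ∈ T, w p ≤ ∑ p ∈ U, w p) := by
  have h1 : (1 : ℝ) ≤ cp T (fun U => (1 / 2) * ∑ p ∈ T, w p ≤ ∑ p ∈ U, w p) +
      cp T (fun U => (1 / 2) * ∑ p ∈ T, w p ≤ ∑ p ∈ T \ U, w p) := by
    refine (cp_true T).symm.le.trans ((cp_mono T ?_).trans (cp_or T _ _))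
    intro U hU _
    have := sum_sdiff (f := w) hU
    by_contra hcon
    push Not at hcon
    linarith [hcon.1, hcon.2]
  have h2 := cp_compl T (fun U => (1 / 2) * ∑ p ∈ T, w p ≤ ∑ p ∈ U, w p)
  rw [h2] at h1
  linarith

/-- Chernoff bound. -/
lemma cp_chernoff (T : Finset ℕ) (w : ℕ → ℝ) (l t : ℝ) (hl : 0 ≤ l) :
    cp T (fun U => t ≤ ∑ p ∈ U, w p) ≤
      Real.exp (-(l * t)) * ∏ p ∈ T, ((1 + Real.exp (l * w p)) / 2) := by
  classical
  rw [cp_eq]
  have h1 : ∏ p ∈ T, ((1 + Real.exp (l * w p)) / 2) =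
      (∑ U ∈ T.powerset, Real.exp (l * ∑ p ∈ U, w p)) / 2 ^ T.card := by
    rw [prod_div_distrib, prod_const]
    congr 1
    simp_rw [add_comm (1 : ℝ)]
    rw [prod_add]
    apply sum_congr rfl
    intro U _
    rw [prod_const_one, mul_one, mul_sum, Real.exp_sum]
  rw [h1, ← mul_div_assoc]
  apply div_le_div_of_nonneg_right _ (by positivity)
  rw [card_eq_sum_ones, Nat.cast_sum, mul_sum]
  calc ∑ U ∈ T.powerset.filter (fun U => t ≤ ∑ p ∈ U, w p), ((1 : ℕ) : ℝ)
      ≤ ∑ U ∈ T.powerset.filter (fun U => t ≤ ∑ p ∈ U, w p),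
        Real.exp (-(l * t)) * Real.exp (l * ∑ p ∈ U, w p) := by
        apply sum_le_sum
        intro U hU
        rw [mem_filter] at hU
        rw [← Real.exp_add, Nat.cast_one]
        apply Real.one_le_exp
        nlinarith [mul_le_mul_of_nonneg_left hU.2 hl]
    _ ≤ _ := by
        apply sum_le_sum_of_subset_of_nonneg (filter_subset _ _)
        intro U _ _
        positivity

/-- Hoeffding bound in exponential form. -/
lemma cp_hoeffding (T : Finset ℕ) (w : ℕ → ℝ) (l t : ℝ) (hl : 0 ≤ l) :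
    cp T (fun U => (1 / 2) * ∑ p ∈ T, w p + t ≤ ∑ p ∈ U, w p) ≤
      Real.exp (-(l * t) + l ^ 2 * (∑ p ∈ T, w p ^ 2) / 8) := by
  refine (cp_chernoff T w l _ hl).trans ?_
  have h1 : ∏ p ∈ T, ((1 + Real.exp (l * w p)) / 2) ≤
      ∏ p ∈ T, Real.exp (l * w p / 2 + (l * w p) ^ 2 / 8) := by
    apply prod_le_prod
    · intro p _; positivity
    · intro p _
      have h2 : (1 + Real.exp (l * w p)) / 2 = Real.exp (l * w p / 2) * Real.cosh (l * w p / 2) := by
        rw [Real.cosh_eq, mul_div_assoc', mul_add, ← Real.exp_add, ← Real.exp_add]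
        ring_nf
        rw [Real.exp_zero]
        ring
      rw [h2, Real.exp_add]
      apply mul_le_mul_of_nonneg_left _ (Real.exp_pos _).le
      refine (Real.cosh_le_exp_half_sq _).trans ?_
      apply le_of_eq
      congr 1
      ring
  rw [← Real.exp_sum, ] at h1
  calc _ ≤ Real.exp (-(l * ((1 / 2) * ∑ p ∈ T, w p + t))) *
        Real.exp (∑ p ∈ T, (l * w p / 2 + (l * w p) ^ 2 / 8)) :=
        mul_le_mul_of_nonneg_left h1 (Real.exp_pos _).le
    _ = _ := by
        rw [← Real.exp_add]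
        congr 1
        rw [sum_add_distrib, ← sum_div, ← mul_sum, ← sum_div]
        simp_rw [mul_pow]
        rw [← mul_sum]
        ring

end Pool.Agent.Helper42.RP
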