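import Pool.Agent.Helper42.RP.Cube

/-! Weighted second moment bound. -/

namespace Pool.Agent.Helper42.RP

open Finset

/-- Weighted Chung-Erdos inequality on a finite set. -/
lemma chung_erdos {α ι : Type*} [DecidableEq ι] (X : Finset α) (I : Finset ι)
    (G : ι → α → Prop) [∀ i, DecidablePred (G i)] [DecidablePred fun u => ∃ i ∈ I, G i u]
    (ρ : ι → ℝ) :
    (∑ i ∈ I, ρ i * ((X.filter (G i)).card : ℝ)) ^ 2 ≤
      ((X.filter fun u => ∃ i ∈ I, G i u).card : ℝ) *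
        ∑ i ∈ I, ∑ j ∈ I, ρ i * ρ j * ((X.filter fun u => G i u ∧ G j u).card : ℝ) := by
  classical
  set Z : α → ℝ := fun u => ∑ i ∈ I, if G i u then ρ i else 0 with hZ
  set e : α → ℝ := fun u => if ∃ i ∈ I, G i u then 1 else 0 with he
  have hZe : ∀ u, e u * Z u = Z u := by
    intro u
    by_cases h : ∃ i ∈ I, G i u
    · simp only [he, if_pos h, one_mul]
    · simp only [he, if_neg h, zero_mul, hZ]
      symm
      apply sum_eq_zero
      intro i hi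
      rw [if_neg]
      exact fun hg => h ⟨i, hi, hg⟩
  have h1 : ∑ i ∈ I, ρ i * ((X.filter (G i)).card : ℝ) = ∑ u ∈ X, e u * Z u := by
    simp_rw [hZe, hZ]
    rw [sum_comm]
    apply sum_congr rfl
    intro i _
    rw [← sum_filter, sum_const, nsmul_eq_mul, mul_comm]
  have h2 : ∑ u ∈ X, e u ^ 2 = ((X.filter fun u => ∃ i ∈ I, G i u).card : ℝ) := by
    rw [card_filter, Nat.cast_sum]
    apply sum_congr rfl
    intro u _
    by_cases h : ∃ i ∈ I, G i u <;> simp [he, h]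
  have h3 : ∑ u ∈ X, Z u ^ 2 =
      ∑ i ∈ I, ∑ j ∈ I, ρ i * ρ j * ((X.filter fun u => G i u ∧ G j u).card : ℝ) := by
    have : ∀ u, Z u ^ 2 = ∑ i ∈ I, ∑ j ∈ I, if G i u ∧ G j u then ρ i * ρ j else 0 := by
      intro u
      rw [sq, hZ]
      simp only
      rw [sum_mul_sum]
      apply sum_congr rfl; intro i _
      apply sum_congr rfl; intro j _
      by_cases hi : G i u <;> by_cases hj : G j u <;> simp [hi, hj]
    simp_rw [this]
    rw [sum_comm]
    apply sum_congr rfl; intro i _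
    rw [sum_comm]
    apply sum_congr rfl; intro j _
    rw [← sum_filter, sum_const, nsmul_eq_mul, mul_comm]
  rw [h1, ← h2, ← h3]
  exact sum_mul_sq_le_sq_mul_sq X e Z

/-- The same in terms of `cp`. -/
lemma cp_chung_erdos (I : Finset ℕ) (T : ℕ → Finset ℕ) (γ : ℕ → Finset ℕ → Prop) (ρ : ℕ → ℝ) :
    (∑ i ∈ I, ρ i * cp (T i) (γ i)) ^ 2 ≤
      cp (I.biUnion T) (fun U => ∃ i ∈ I, γ i (U ∩ T i)) *
        ∑ i ∈ I, ∑ j ∈ I, ρ i * ρ j *
          cp (T i ∪ T j) (fun U => γ i (U ∩ T i) ∧ γ j (U ∩ T j)) := by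
  classical
  set X := I.biUnion T with hX
  have hsub : ∀ i ∈ I, T i ⊆ X := fun i hi => subset_biUnion_of_mem T hi
  have h1 : ∀ i ∈ I, cp (T i) (γ i) =
      ((X.powerset.filter fun U => γ i (U ∩ T i)).card : ℝ) / 2 ^ X.card := by
    intro i hi
    rw [← cp_ext (hsub i hi), cp_eq]
  have h2 : ∀ i ∈ I, ∀ j ∈ I, cp (T i ∪ T j) (fun U => γ i (U ∩ T i) ∧ γ j (U ∩ T j)) =
      ((X.powerset.filter fun U => γ i (U ∩ T i) ∧ γ j (U ∩ T j)).card : ℝ) / 2 ^ X.card := by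
    intro i hi j hj
    rw [← cp_ext (union_subset (hsub i hi) (hsub j hj)), ← cp_eq]
    apply cp_congr
    intro U _
    have e1 : U ∩ (T i ∪ T j) ∩ T i = U ∩ T i := by
      rw [inter_assoc, inter_eq_right.2 subset_union_left]
    have e2 : U ∩ (T i ∪ T j) ∩ T j = U ∩ T j := by
      rw [inter_assoc, inter_eq_right.2 subset_union_right]
    rw [e1, e2]
  rw [cp_eq, sum_congr rfl fun i hi => by rw [h1 i hi],
    sum_congr rfl fun i hi => sum_congr rfl fun j hj => by rw [h2 i hi j hj]]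
  have h3 := chung_erdos X.powerset I (fun i U => γ i (U ∩ T i)) ρ
  have e1 : ∑ i ∈ I, ρ i * (((X.powerset.filter fun U => γ i (U ∩ T i)).card : ℝ) /
      2 ^ X.card) = (∑ i ∈ I, ρ i * ((X.powerset.filter fun U => γ i (U ∩ T i)).card : ℝ)) /
      2 ^ X.card := by
    rw [sum_div]; apply sum_congr rfl; intro i _; ring
  have e2 : ∑ i ∈ I, ∑ j ∈ I, ρ i * ρ j *
      (((X.powerset.filter fun U => γ i (U ∩ T i) ∧ γ j (U ∩ T j)).card : ℝ) / 2 ^ X.card) =
      (∑ i ∈ I, ∑ j ∈ I, ρ i * ρ j *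
      ((X.powerset.filter fun U => γ i (U ∩ T i) ∧ γ j (U ∩ T j)).card : ℝ)) / 2 ^ X.card := by
    rw [sum_div]; apply sum_congr rfl; intro i _
    rw [sum_div]; apply sum_congr rfl; intro j _; ring
  rw [e1, e2, div_pow, div_mul_div_comm, ← sq]
  exact div_le_div_of_nonneg_right h3 (by positivity)

/-- A system of weights. -/
structure Sys where
  T : ℕ → Finset ℕ
  w : ℕ → ℕ → ℝ
  nn : ∀ n p, 0 ≤ w n p
  tot : ∀ n, ∑ p ∈ T n, w n p ≤ n
  ov : ∀ m n, 0 < m → m < n → ∑ p ∈ T n ∩ T m, w n p ≤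
    (Nat.gcd n m : ℝ) * Real.log 2 + Real.log ((n : ℝ) / Nat.gcd n m)

namespace Sys
variable (S : Sys) (c η : ℝ)

/-- the probability of a large value -/
noncomputable def P (n : ℕ) : ℝ := cp (S.T n) fun U => c * n ≤ ∑ p ∈ U, S.w n p
noncomputable def kap (n : ℕ) : ℝ := 1 - Real.log (S.P c n)
noncomputable def Hv (n : ℕ) : Finset ℕ :=
  (S.T n).filter fun p => η ^ 2 / 4 * n / S.kap c n ≤ S.w n p
noncomputable def Lt (n : ℕ) : Finset ℕ := S.T n \ S.Hv c η n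
def phi (n : ℕ) (U : Finset ℕ) : Prop :=
  (c - η / 2) * n ≤ ∑ p ∈ U, S.w n p + (1 / 2) * ∑ p ∈ S.Lt c η n, S.w n p
def psi (n : ℕ) (U : Finset ℕ) : Prop :=
  (1 / 2) * ∑ p ∈ S.Lt c η n, S.w n p ≤ ∑ p ∈ U, S.w n p
def gam (n : ℕ) (U : Finset ℕ) : Prop :=
  S.phi c η n (U ∩ S.Hv c η n) ∧ S.psi c η n (U ∩ S.Lt c η n)
noncomputable def P' (n : ℕ) : ℝ := cp (S.Hv c η n) (S.phi c η n)
noncomputable def q (n : ℕ) : ℝ := min (S.P' c η n) (Real.exp (-(S.kap c n / 2)))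
noncomputable def rho (n : ℕ) : ℝ := S.q c η n / S.P' c η n

variable {S c η}

lemma hv_sub (n : ℕ) : S.Hv c η n ⊆ S.T n := filter_subset _ _
lemma lt_sub (n : ℕ) : S.Lt c η n ⊆ S.T n := sdiff_subset
lemma disj (n : ℕ) : Disjoint (S.Hv c η n) (S.Lt c η n) := disjoint_sdiff
lemma union_eq (n : ℕ) : S.Hv c η n ∪ S.Lt c η n = S.T n :=
  union_sdiff_of_subset (hv_sub n)

lemma sum_split {n : ℕ} {U : Finset ℕ} (hU : U ⊆ S.T n) :
    ∑ p ∈ U, S.w n p = ∑ p ∈ U ∩ S.Hv c η n, S.w n p + ∑ p ∈ U ∩ S.Lt c η n, S.w n p := by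
  rw [← sum_union]
  · congr 1
    rw [← inter_union_distrib_left, union_eq, inter_eq_left.2 hU]
  · exact (disj n).mono inter_subset_right inter_subset_right

lemma P_le_one (n : ℕ) : S.P c n ≤ 1 := cp_le_one _ _
lemma P_nonneg (n : ℕ) : 0 ≤ S.P c n := cp_nonneg _ _
lemma P'_le_one (n : ℕ) : S.P' c η n ≤ 1 := cp_le_one _ _
lemma P'_nonneg (n : ℕ) : 0 ≤ S.P' c η n := cp_nonneg _ _

lemma one_le_kap {n : ℕ} (_hP : 0 < S.P c n) : 1 ≤ S.kap c n := by
  unfold kap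
  have := Real.log_nonpos (P_nonneg n) (P_le_one (S := S) (c := c) n)
  linarith

/-- Lower bound for the truncated event. -/
lemma P'_ge {n : ℕ} (hn : 0 < n) (hη : 0 < η) (hP : 0 < S.P c n) :
    S.P c n / 2 ≤ S.P' c η n := by
  have hκ := one_le_kap hP
  have hn' : (0 : ℝ) < n := Nat.cast_pos.2 hn
  have h1 : S.P c n ≤ S.P' c η n + cp (S.Lt c η n) (fun U =>
      (1 / 2) * ∑ p ∈ S.Lt c η n, S.w n p + η * n / 2 ≤ ∑ p ∈ U, S.w n p) := by
    unfold P P'
    rw [← cp_ext (hv_sub (S := S) (c := c) (η := η) n), ← cp_ext (lt_sub (S := S) (c := c) (η := η) n)]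
    refine (cp_mono _ ?_).trans (cp_or _ _ _)
    intro U hU h
    rw [sum_split (c := c) (η := η) hU] at h
    by_contra hcon
    push Not at hcon
    obtain ⟨ha, hb⟩ := hcon
    unfold phi at ha
    push Not at ha
    linarith
  have hw2 : ∑ p ∈ S.Lt c η n, S.w n p ^ 2 ≤ η ^ 2 / 4 * n ^ 2 / S.kap c n := by
    have e1 : ∀ p ∈ S.Lt c η n, S.w n p ^ 2 ≤ η ^ 2 / 4 * n / S.kap c n * S.w n p := by
      intro p hp
      unfold Lt Hv at hp
      rw [mem_sdiff, mem_filter] at hp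
      have h2 : S.w n p < η ^ 2 / 4 * n / S.kap c n := by
        by_contra hcon
        exact hp.2 ⟨hp.1, not_lt.1 hcon⟩
      rw [sq]
      exact mul_le_mul_of_nonneg_right h2.le (S.nn n p)
    calc ∑ p ∈ S.Lt c η n, S.w n p ^ 2 ≤ ∑ p ∈ S.Lt c η n, η ^ 2 / 4 * n / S.kap c n * S.w n p :=
          sum_le_sum e1
      _ = η ^ 2 / 4 * n / S.kap c n * ∑ p ∈ S.Lt c η n, S.w n p := by rw [mul_sum]
      _ ≤ η ^ 2 / 4 * n / S.kap c n * n := by
          apply mul_le_mul_of_nonneg_left _ (by positivity)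
          refine le_trans ?_ (S.tot n)
          exact sum_le_sum_of_subset_of_nonneg (lt_sub n) fun p _ _ => S.nn n p
      _ = _ := by ring
  have h2 : cp (S.Lt c η n) (fun U =>
      (1 / 2) * ∑ p ∈ S.Lt c η n, S.w n p + η * n / 2 ≤ ∑ p ∈ U, S.w n p) ≤
      Real.exp (-(2 * S.kap c n)) := by
    refine (cp_hoeffding _ _ (8 * S.kap c n / (η * n)) (η * n / 2) (by positivity)).trans ?_
    apply Real.exp_le_exp.2
    have e2 : (8 * S.kap c n / (η * n)) ^ 2 * (∑ p ∈ S.Lt c η n, S.w n p ^ 2) / 8 ≤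
        (8 * S.kap c n / (η * n)) ^ 2 * (η ^ 2 / 4 * n ^ 2 / S.kap c n) / 8 := by
      apply div_le_div_of_nonneg_right _ (by norm_num)
      exact mul_le_mul_of_nonneg_left hw2 (by positivity)
    have e3 : (8 * S.kap c n / (η * n)) ^ 2 * (η ^ 2 / 4 * n ^ 2 / S.kap c n) / 8 =
        2 * S.kap c n := by
      field_simp
      ring
    have e4 : 8 * S.kap c n / (η * n) * (η * n / 2) = 4 * S.kap c n := by
      field_simp
      ring
    rw [e4]
    linarith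
  have h3 : Real.exp (-(2 * S.kap c n)) ≤ S.P c n / 2 := by
    have e5 : Real.exp (-(2 * S.kap c n)) = Real.exp (-2) * S.P c n ^ 2 := by
      unfold kap
      rw [show -(2 * (1 - Real.log (S.P c n))) = -2 + (Real.log (S.P c n) + Real.log (S.P c n))
        by ring, Real.exp_add, Real.exp_add, Real.exp_log hP, sq]
    rw [e5]
    have e6 : Real.exp (-2) ≤ 1 / 2 := by
      rw [Real.exp_neg, inv_le_comm₀ (Real.exp_pos _) (by norm_num)]
      have := Real.add_one_le_exp (2 : ℝ)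
      norm_num at this ⊢
      linarith
    have e7 : S.P c n ^ 2 ≤ S.P c n := by
      rw [sq]
      exact mul_le_of_le_one_left hP.le (P_le_one n)
    nlinarith [Real.exp_pos (-2)]
  linarith

lemma P'_pos {n : ℕ} (hn : 0 < n) (hη : 0 < η) (hP : 0 < S.P c n) : 0 < S.P' c η n :=
  lt_of_lt_of_le (by linarith) (P'_ge hn hη hP)

lemma q_ge {n : ℕ} (hn : 0 < n) (hη : 0 < η) (hP : 0 < S.P c n) :
    S.P c n / 2 ≤ S.q c η n := by
  unfold q
  refine le_min (P'_ge hn hη hP) ?_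
  have h1 : Real.exp (-(S.kap c n / 2)) = Real.exp (-(1 / 2)) * Real.exp (Real.log (S.P c n) / 2) := by
    rw [← Real.exp_add]; unfold kap; congr 1; ring
  rw [h1]
  have h2 : (1 : ℝ) / 2 ≤ Real.exp (-(1 / 2)) := by
    have := Real.add_one_le_exp (-(1 / 2) : ℝ)
    linarith
  have h3 : S.P c n ≤ Real.exp (Real.log (S.P c n) / 2) := by
    have hl := Real.log_nonpos (P_nonneg n) (P_le_one (S := S) (c := c) n)
    calc S.P c n = Real.exp (Real.log (S.P c n)) := (Real.exp_log hP).symm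
      _ ≤ _ := Real.exp_le_exp.2 (by linarith)
  nlinarith

lemma q_pos {n : ℕ} (hn : 0 < n) (hη : 0 < η) (hP : 0 < S.P c n) : 0 < S.q c η n :=
  lt_of_lt_of_le (by linarith) (q_ge hn hη hP)

lemma rho_nonneg {n : ℕ} (hn : 0 < n) (hη : 0 < η) (hP : 0 < S.P c n) : 0 ≤ S.rho c η n :=
  div_nonneg (q_pos hn hη hP).le (P'_nonneg n)

lemma rho_le_one {n : ℕ} (hn : 0 < n) (hη : 0 < η) (hP : 0 < S.P c n) : S.rho c η n ≤ 1 := by
  unfold rho
  rw [div_le_one (P'_pos hn hη hP)]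
  exact min_le_left _ _

lemma rho_mul {n : ℕ} (hn : 0 < n) (hη : 0 < η) (hP : 0 < S.P c n) :
    S.rho c η n * S.P' c η n = S.q c η n := by
  unfold rho
  exact div_mul_cancel₀ _ (P'_pos hn hη hP).ne'

/-- The probability of the good event. -/
lemma gam_ge (n : ℕ) : S.P' c η n / 2 ≤ cp (S.T n) (S.gam c η n) := by
  have h1 := cp_indep _ _ (disj (S := S) (c := c) (η := η) n) (S.phi c η n) (S.psi c η n)
  rw [union_eq] at h1
  have h2 : cp (S.T n) (S.gam c η n) = S.P' c η n * cp (S.Lt c η n) (S.psi c η n) := h1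
  have h3 : 1 / 2 ≤ cp (S.Lt c η n) (S.psi c η n) := cp_half _ _
  rw [h2]
  nlinarith [P'_nonneg (S := S) (c := c) (η := η) n]

lemma gam_le (n : ℕ) : cp (S.T n) (S.gam c η n) ≤ S.P' c η n := by
  unfold P'
  rw [← cp_ext (hv_sub (S := S) (c := c) (η := η) n)]
  exact cp_mono _ fun U _ h => h.1

lemma gam_imp {n : ℕ} {U : Finset ℕ} (hη : 0 ≤ η) (hU : U ⊆ S.T n) (h : S.gam c η n U) :
    (c - η) * n ≤ ∑ p ∈ U, S.w n p := by
  rw [sum_split (c := c) (η := η) hU]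
  have h1 := h.1
  have h2 := h.2
  unfold phi at h1
  unfold psi at h2
  have : (0 : ℝ) ≤ η / 2 * n := by positivity
  nlinarith

/-- Pairs. -/
lemma pair_le (n m : ℕ) : cp (S.T n ∪ S.T m)
    (fun U => S.gam c η n (U ∩ S.T n) ∧ S.gam c η m (U ∩ S.T m)) ≤
      2 ^ (S.Hv c η n ∩ S.Hv c η m).card * S.P' c η n * S.P' c η m := by
  refine le_trans ?_ (cp_overlap _ _ _ _)
  rw [← cp_ext (union_subset_union (hv_sub (S := S) (c := c) (η := η) n)
    (hv_sub (S := S) (c := c) (η := η) m))]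
  apply cp_mono
  intro U _ h
  have e1 : U ∩ S.T n ∩ S.Hv c η n = U ∩ S.Hv c η n := by
    rw [inter_assoc, inter_eq_right.2 (hv_sub n)]
  have e2 : U ∩ S.T m ∩ S.Hv c η m = U ∩ S.Hv c η m := by
    rw [inter_assoc, inter_eq_right.2 (hv_sub m)]
  have e3 : U ∩ (S.Hv c η n ∪ S.Hv c η m) ∩ S.Hv c η n = U ∩ S.Hv c η n := by
    rw [inter_assoc, inter_eq_right.2 subset_union_left]
  have e4 : U ∩ (S.Hv c η n ∪ S.Hv c η m) ∩ S.Hv c η m = U ∩ S.Hv c η m := by
    rw [inter_assoc, inter_eq_right.2 subset_union_right]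
  rw [e3, e4, ← e1, ← e2]
  exact ⟨h.1.1, h.2.1⟩

lemma pair_le' (n m : ℕ) : cp (S.T n ∪ S.T m)
    (fun U => S.gam c η n (U ∩ S.T n) ∧ S.gam c η m (U ∩ S.T m)) ≤ S.P' c η m := by
  refine le_trans ?_ (gam_le m)
  rw [← cp_ext (subset_union_right (s₁ := S.T n) (s₂ := S.T m))]
  exact cp_mono _ fun U _ h => h.2

end Sys

end Pool.Agent.Helper42.RP
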