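import Mathlib
import Pool.Agent.Helper42.RP.Second

/-! The system of the Mersenne numbers. -/

namespace Pool.Agent.Helper42.RP

open Finset

lemma log_eq_sum (m : ℕ) :
    Real.log m = ∑ p ∈ m.primeFactors, (m.factorization p : ℝ) * Real.log p := by
  rw [Real.log_nat_eq_sum_factorization, Finsupp.sum, Nat.support_factorization]

lemma term_nonneg (m p : ℕ) : 0 ≤ (m.factorization p : ℝ) * Real.log p :=
  mul_nonneg (Nat.cast_nonneg _) (Real.log_natCast_nonneg p)

lemma sum_le_log (m : ℕ) (s : Finset ℕ) :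
    ∑ p ∈ s, (m.factorization p : ℝ) * Real.log p ≤ Real.log m := by
  rw [log_eq_sum]
  have h1 : ∑ p ∈ s, (m.factorization p : ℝ) * Real.log p =
      ∑ p ∈ s ∩ m.primeFactors, (m.factorization p : ℝ) * Real.log p := by
    symm
    apply sum_subset inter_subset_left
    intro p hp hpn
    have : p ∉ m.primeFactors := fun h => hpn (mem_inter.2 ⟨hp, h⟩)
    rw [← Nat.support_factorization, Finsupp.notMem_support_iff] at this
    rw [this]; simp
  rw [h1]
  exact sum_le_sum_of_subset_of_nonneg inter_subset_right fun p _ _ => term_nonneg m p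

lemma log_mers_le (n : ℕ) : Real.log ((2 ^ n - 1 : ℕ) : ℝ) ≤ n * Real.log 2 := by
  rcases Nat.eq_zero_or_pos (2 ^ n - 1) with h | h
  · rw [h]; simp; positivity
  · rw [← Real.log_pow]
    apply Real.log_le_log (by exact_mod_cast h)
    have : 2 ^ n - 1 ≤ 2 ^ n := Nat.sub_le _ _
    exact_mod_cast this

lemma mers_fac {n m p : ℕ} (hm : 0 < m) (hn : 0 < n) (hp : p.Prime) (h1 : p ∣ 2 ^ n - 1)
    (h2 : p ∣ 2 ^ m - 1) :
    p ∣ 2 ^ Nat.gcd n m - 1 ∧ (2 ^ n - 1).factorization p =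
      (2 ^ Nat.gcd n m - 1).factorization p + (n / Nat.gcd n m).factorization p := by
  have hg : p ∣ 2 ^ Nat.gcd n m - 1 := by
    rw [← Nat.pow_sub_one_gcd_pow_sub_one]
    exact Nat.dvd_gcd h1 h2
  have hg0 : 0 < Nat.gcd n m := Nat.gcd_pos_of_pos_right n hm
  refine ⟨hg, ?_⟩
  have := Fact.mk hp
  have hodd2 : ¬ p ∣ 2 ^ Nat.gcd n m := by
    intro h
    have h3 : p ∣ 2 ^ Nat.gcd n m - (2 ^ Nat.gcd n m - 1) := Nat.dvd_sub h hg
    have h4 : 2 ^ Nat.gcd n m - (2 ^ Nat.gcd n m - 1) = 1 := by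
      have : 1 ≤ 2 ^ Nat.gcd n m := Nat.one_le_two_pow
      omega
    rw [h4] at h3
    exact hp.one_lt.ne' (Nat.dvd_one.1 h3)
  have hodd : Odd p := by
    rcases hp.eq_two_or_odd' with h | h
    · subst h
      exact absurd (dvd_pow_self 2 hg0.ne') hodd2
    · exact h
  have hlt : 1 < 2 ^ Nat.gcd n m := Nat.one_lt_two_pow hg0.ne'
  have hng : n / Nat.gcd n m ≠ 0 :=
    (Nat.div_pos (Nat.le_of_dvd hn (Nat.gcd_dvd_left n m)) hg0).ne'
  have h5 := padicValNat.pow_sub_pow (p := p) hodd hlt hg hodd2 hng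
  rw [one_pow, ← pow_mul, Nat.mul_div_cancel' (Nat.gcd_dvd_left n m)] at h5
  rw [Nat.factorization_def _ hp, Nat.factorization_def _ hp, Nat.factorization_def _ hp]
  exact h5

/-- The system of the Mersenne numbers. -/
noncomputable def MS : Sys where
  T n := (2 ^ n - 1).primeFactors
  w n p := ((2 ^ n - 1).factorization p : ℝ) * Real.log p
  nn n p := term_nonneg _ _
  tot n := by
    rw [← log_eq_sum]
    refine (log_mers_le n).trans ?_
    have : Real.log 2 ≤ 1 := by
      have := Real.log_two_lt_d9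
      linarith
    have hn : (0 : ℝ) ≤ n := Nat.cast_nonneg n
    nlinarith
  ov m n hm hmn := by
    have hn : 0 < n := by omega
    have hg0 : 0 < Nat.gcd n m := Nat.gcd_pos_of_pos_right n hm
    have h1 : ∀ p : ℕ, p ∈ (2 ^ n - 1).primeFactors ∩ (2 ^ m - 1).primeFactors →
        ((2 ^ n - 1).factorization p : ℝ) * Real.log p =
        ((2 ^ Nat.gcd n m - 1).factorization p : ℝ) * Real.log p +
        ((n / Nat.gcd n m).factorization p : ℝ) * Real.log p := by
      intro p hp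
      rw [mem_inter] at hp
      have := (mers_fac hm hn (Nat.prime_of_mem_primeFactors hp.1)
        (Nat.dvd_of_mem_primeFactors hp.1) (Nat.dvd_of_mem_primeFactors hp.2)).2
      rw [this]
      push_cast
      ring
    rw [sum_congr rfl h1, sum_add_distrib]
    have h2 := sum_le_log (2 ^ Nat.gcd n m - 1) ((2 ^ n - 1).primeFactors ∩ (2 ^ m - 1).primeFactors)
    have h3 := sum_le_log (n / Nat.gcd n m) ((2 ^ n - 1).primeFactors ∩ (2 ^ m - 1).primeFactors)
    have h4 := log_mers_le (Nat.gcd n m)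
    have h5 : ((n / Nat.gcd n m : ℕ) : ℝ) = (n : ℝ) / Nat.gcd n m :=
      Nat.cast_div (Nat.gcd_dvd_left n m) (by exact_mod_cast hg0.ne')
    rw [h5] at h3
    linarith

lemma MS_prime : ∀ n, ∀ p ∈ MS.T n, p.Prime := fun _ _ hp => Nat.prime_of_mem_primeFactors hp

lemma MS_tot (n : ℕ) : ∑ p ∈ MS.T n, MS.w n p = Real.log ((2 ^ n - 1 : ℕ) : ℝ) :=
  (log_eq_sum _).symm

end Pool.Agent.Helper42.RP
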