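import Mathlib
import Pool.Agent.Helper42.RP.Cube

/-! Concentration of the weight on few elements and large deviations of random subsets. -/

namespace Pool.Agent.Helper42.RP

open Finset

/-- least size of a subset of `T` carrying the proportion `t` of the weight -/
noncomputable def kp (T : Finset ℕ) (w : ℕ → ℝ) (t : ℝ) : ℕ :=
  sInf {k | ∃ S ⊆ T, S.card = k ∧ t * ∑ p ∈ T, w p ≤ ∑ p ∈ S, w p}

section

variable {T : Finset ℕ} {w : ℕ → ℝ} {t : ℝ}

lemma kp_spec (hw : ∀ p, 0 ≤ w p) (ht : t ≤ 1) :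
    ∃ S ⊆ T, S.card = kp T w t ∧ t * ∑ p ∈ T, w p ≤ ∑ p ∈ S, w p := by
  have hne : {k | ∃ S ⊆ T, S.card = k ∧ t * ∑ p ∈ T, w p ≤ ∑ p ∈ S, w p}.Nonempty :=
    ⟨T.card, T, Subset.refl _, rfl, mul_le_of_le_one_left (sum_nonneg fun p _ => hw p) ht⟩
  exact Nat.sInf_mem hne

lemma kp_min {S : Finset ℕ} (hS : S ⊆ T) (hc : S.card < kp T w t) :
    ∑ p ∈ S, w p < t * ∑ p ∈ T, w p := by
  by_contra hcon
  push Not at hcon
  have : kp T w t ≤ S.card := Nat.sInf_le ⟨S, hS, rfl, hcon⟩
  omega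

lemma cp_self (S : Finset ℕ) : cp S (fun V => V = S) = (1 / 2) ^ S.card := by
  classical
  rw [cp_eq]
  have : S.powerset.filter (fun V => V = S) = {S} := by
    ext V
    rw [mem_filter, mem_powerset, mem_singleton]
    exact ⟨fun h => h.2, fun h => ⟨h ▸ Subset.refl _, h⟩⟩
  rw [this, card_singleton, Nat.cast_one, one_div_pow]

/-- choosing all elements of an optimal set -/
lemma kp_lower (hw : ∀ p, 0 ≤ w p) (ht : t ≤ 1) :
    (1 / 2 : ℝ) ^ kp T w t ≤ cp T (fun U => t * ∑ p ∈ T, w p ≤ ∑ p ∈ U, w p) := by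
  obtain ⟨S, hST, hSc, hS⟩ := kp_spec (T := T) hw ht
  rw [← hSc, ← cp_self, ← cp_ext hST]
  apply cp_mono
  intro U _ hUS
  refine hS.trans ?_
  apply sum_le_sum_of_subset_of_nonneg _ fun p _ _ => hw p
  rw [← hUS]; exact inter_subset_left

/-- choosing all elements of an optimal set and the heavier half of the others -/
lemma kp_lower_half (hw : ∀ p, 0 ≤ w p) (ht : t ≤ 1) :
    (1 / 2 : ℝ) ^ kp T w t * (1 / 2) ≤
      cp T (fun U => (1 + t) / 2 * ∑ p ∈ T, w p ≤ ∑ p ∈ U, w p) := by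
  obtain ⟨S, hST, hSc, hS⟩ := kp_spec (T := T) hw ht
  have h1 := cp_indep S (T \ S) disjoint_sdiff (fun V => V = S)
    (fun V => (1 / 2) * ∑ p ∈ T \ S, w p ≤ ∑ p ∈ V, w p)
  rw [union_sdiff_of_subset hST, cp_self, hSc] at h1
  have h2 := cp_half (T \ S) w
  have h3 : (1 / 2 : ℝ) ^ kp T w t * (1 / 2) ≤ (1 / 2 : ℝ) ^ kp T w t *
      cp (T \ S) (fun V => (1 / 2) * ∑ p ∈ T \ S, w p ≤ ∑ p ∈ V, w p) :=
    mul_le_mul_of_nonneg_left h2 (by positivity)
  rw [← h1] at h3
  refine h3.trans ?_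
  apply cp_mono
  rintro U hU ⟨e1, e2⟩
  have e3 : ∑ p ∈ U, w p = ∑ p ∈ U ∩ S, w p + ∑ p ∈ U ∩ (T \ S), w p := by
    rw [← sum_union]
    · congr 1
      rw [← inter_union_distrib_left, union_sdiff_of_subset hST, inter_eq_left.2 hU]
    · exact disjoint_sdiff.mono inter_subset_right inter_subset_right
  have e4 : ∑ p ∈ T \ S, w p + ∑ p ∈ S, w p = ∑ p ∈ T, w p := sum_sdiff hST
  rw [e3, e1]
  nlinarith

/-- combinatorial core of the upper bound near the full weight -/
lemma comb {u : ℕ → ℝ} (hu : ∀ p, 0 ≤ u p) (hu1 : ∑ p ∈ T, u p = 1) {ε : ℝ} (hε : 0 < ε)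
    (hε1 : ε < 1) {k : ℕ} (hk : 1 ≤ k)
    (h : ∀ S ⊆ T, S.card < k → ∑ p ∈ S, u p < 1 - ε) :
    (k : ℝ) + k * ε - 1 ≤ ∑ p ∈ T, min 1 (k * u p / (ε / 4)) := by
  classical
  have hk0 : (0 : ℝ) < k := by exact_mod_cast hk
  set H := T.filter (fun p => ε / 4 ≤ k * u p) with hH
  set T₁ := T.filter (fun p => 1 < k * u p) with hT₁
  have hmin0 : ∀ p, 0 ≤ min 1 (k * u p / (ε / 4)) := by
    intro p
    exact le_min zero_le_one (div_nonneg (mul_nonneg hk0.le (hu p)) (by positivity))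
  have hsub : T₁ ⊆ H := by
    intro p hp
    rw [hT₁, mem_filter] at hp
    rw [hH, mem_filter]
    exact ⟨hp.1, by linarith [hp.2]⟩
  have hc1 : T₁.card < k := by
    rcases T₁.eq_empty_or_nonempty with h0 | h0
    · rw [h0, card_empty]; omega
    · have h1 : ∑ p ∈ T₁, (1 : ℝ) < ∑ p ∈ T₁, k * u p := by
        apply sum_lt_sum_of_nonempty h0
        intro p hp
        rw [hT₁, mem_filter] at hp
        exact hp.2
      have h2 : ∑ p ∈ T₁, k * u p ≤ k := by
        rw [← mul_sum]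
        calc (k : ℝ) * ∑ p ∈ T₁, u p ≤ k * ∑ p ∈ T, u p := by
              apply mul_le_mul_of_nonneg_left _ hk0.le
              exact sum_le_sum_of_subset_of_nonneg (filter_subset _ _) fun p _ _ => hu p
          _ = k := by rw [hu1, mul_one]
      rw [sum_const, nsmul_eq_mul, mul_one] at h1
      exact_mod_cast h1.trans_le h2
  rcases lt_or_ge H.card k with hA | hB
  · -- few heavy elements
    have h1 := h H (filter_subset _ _) hA
    have h2 : ∑ p ∈ T \ H, u p + ∑ p ∈ H, u p = 1 := by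
      rw [sum_sdiff (filter_subset _ _), hu1]
    have h3 : ∑ p ∈ T \ H, k * u p / (ε / 4) ≤ ∑ p ∈ T \ H, min 1 (k * u p / (ε / 4)) := by
      apply sum_le_sum
      intro p hp
      rw [mem_sdiff, hH, mem_filter] at hp
      apply le_min _ le_rfl
      rw [div_le_one (by positivity)]
      by_contra hcon
      push Not at hcon
      exact hp.2 ⟨hp.1, hcon.le⟩
    have h4 : ∑ p ∈ T \ H, min 1 (k * u p / (ε / 4)) ≤ ∑ p ∈ T, min 1 (k * u p / (ε / 4)) :=
      sum_le_sum_of_subset_of_nonneg sdiff_subset fun p _ _ => hmin0 p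
    have h5 : ∑ p ∈ T \ H, k * u p / (ε / 4) = 4 * k / ε * ∑ p ∈ T \ H, u p := by
      rw [mul_sum]
      apply sum_congr rfl
      intro p _
      field_simp
    have h6 : 4 * k / ε * ε ≤ 4 * k / ε * ∑ p ∈ T \ H, u p := by
      apply mul_le_mul_of_nonneg_left _ (by positivity)
      linarith
    have h7 : 4 * k / ε * ε = 4 * k := by field_simp
    nlinarith
  · -- many heavy elements
    obtain ⟨A, hA1, hA2, hA3⟩ := exists_subsuperset_card_eq hsub (by omega : T₁.card ≤ k - 1)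
      (by omega : k - 1 ≤ H.card)
    have hAT : A ⊆ T := hA2.trans (filter_subset _ _)
    have h1 := h A hAT (by omega)
    have h2 : ∑ p ∈ T \ A, u p + ∑ p ∈ A, u p = 1 := by
      rw [sum_sdiff hAT, hu1]
    have h3 : ∑ p ∈ T \ A, min 1 (k * u p / (ε / 4)) + ∑ p ∈ A, min 1 (k * u p / (ε / 4)) =
        ∑ p ∈ T, min 1 (k * u p / (ε / 4)) := sum_sdiff hAT
    have h4 : ∑ p ∈ A, min 1 (k * u p / (ε / 4)) = (k : ℝ) - 1 := by
      have : ∀ p ∈ A, min 1 (k * u p / (ε / 4)) = 1 := by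
        intro p hp
        have := hA2 hp
        rw [hH, mem_filter] at this
        apply min_eq_left
        rw [le_div_iff₀ (by positivity), one_mul]
        exact this.2
      rw [sum_congr rfl this, sum_const, nsmul_eq_mul, mul_one, hA3]
      push_cast [Nat.cast_sub hk]
      ring
    have h5 : k * ∑ p ∈ T \ A, u p ≤ ∑ p ∈ T \ A, min 1 (k * u p / (ε / 4)) := by
      rw [mul_sum]
      apply sum_le_sum
      intro p hp
      rw [mem_sdiff] at hp
      have hp1 : k * u p ≤ 1 := by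
        by_contra hcon
        push Not at hcon
        apply hp.2
        apply hA1
        rw [hT₁, mem_filter]
        exact ⟨hp.1, hcon⟩
      apply le_min hp1
      rw [le_div_iff₀ (by positivity)]
      have : 0 ≤ k * u p := mul_nonneg hk0.le (hu p)
      nlinarith
    nlinarith

/-- the convexity estimate -/
lemma half_exp_le {L τ x : ℝ} (hτ : 0 < τ) (hL : 0 < L) (hx : 0 ≤ x) :
    (1 + Real.exp (-(L * x))) / 2 ≤
      ((1 + Real.exp (-(L * τ))) / 2) ^ (min 1 (x / τ)) := by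
  rcases le_or_gt 1 (x / τ) with h | h
  · rw [min_eq_left h, Real.rpow_one]
    have h1 : τ ≤ x := by rwa [le_div_iff₀ hτ, one_mul] at h
    have h2 : Real.exp (-(L * x)) ≤ Real.exp (-(L * τ)) := by
      apply Real.exp_le_exp.2
      nlinarith
    linarith
  · rw [min_eq_right h.le]
    set s := x / τ with hs
    have hs0 : 0 ≤ s := div_nonneg hx hτ.le
    have h1 : Real.exp (-(L * x)) = Real.exp (-(L * τ)) ^ s := by
      rw [← Real.exp_mul]
      congr 1
      rw [hs]
      field_simp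
    obtain ⟨-, hcc⟩ := Real.concaveOn_rpow hs0 h.le
    have h2 := hcc (Set.mem_Ici.2 zero_le_one) (Set.mem_Ici.2 (Real.exp_pos (-(L * τ))).le)
      (by norm_num : (0 : ℝ) ≤ 1 / 2) (by norm_num : (0 : ℝ) ≤ 1 / 2)
      (by norm_num : (1 / 2 : ℝ) + 1 / 2 = 1)
    simp only [smul_eq_mul, Real.one_rpow] at h2
    rw [h1]
    calc (1 + Real.exp (-(L * τ)) ^ s) / 2 = 1 / 2 * 1 + 1 / 2 * Real.exp (-(L * τ)) ^ s := by ring
      _ ≤ (1 / 2 * 1 + 1 / 2 * Real.exp (-(L * τ))) ^ s := h2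
      _ = _ := by congr 1; ring

/-- upper bound near the full weight -/
lemma kp_upper {ε : ℝ} (hε : 0 < ε) (hε1 : ε < 1) :
    ∃ δ : ℝ, 0 < δ ∧ δ < 1 ∧ ∀ (T : Finset ℕ) (w : ℕ → ℝ), (∀ p, 0 ≤ w p) →
      0 < ∑ p ∈ T, w p →
      cp T (fun U => (1 - δ) * ∑ p ∈ T, w p ≤ ∑ p ∈ U, w p) ≤
        2 * (1 / 2 : ℝ) ^ kp T w (1 - ε) := by
  have hl2 : 0 < Real.log 2 := Real.log_pos (by norm_num)
  set a : ℝ := (2 : ℝ) ^ (ε / 8) - 1 with ha
  have ha0 : 0 < a := by
    have := Real.one_lt_rpow (by norm_num : (1 : ℝ) < 2) (by positivity : 0 < ε / 8)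
    rw [ha]; linarith
  have ha1 : a < 1 := by
    have := Real.rpow_lt_rpow_of_exponent_lt (by norm_num : (1 : ℝ) < 2)
      (by linarith : ε / 8 < 1)
    rw [Real.rpow_one] at this
    rw [ha]; linarith
  set L : ℝ := -Real.log a / (ε / 4) with hL
  have hL0 : 0 < L := by
    apply div_pos _ (by positivity)
    have := Real.log_neg ha0 ha1
    linarith
  have hLτ : Real.exp (-(L * (ε / 4))) = a := by
    have : L * (ε / 4) = -Real.log a := by
      rw [hL]; field_simp
    rw [this, neg_neg, Real.exp_log ha0]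
  have hb : (1 + Real.exp (-(L * (ε / 4)))) / 2 = Real.exp (-((1 - ε / 8) * Real.log 2)) := by
    rw [hLτ, ha]
    have : (2 : ℝ) ^ (ε / 8) = Real.exp (ε / 8 * Real.log 2) := by
      rw [Real.rpow_def_of_pos (by norm_num), mul_comm]
    rw [this]
    have e : Real.exp (-((1 - ε / 8) * Real.log 2)) =
        Real.exp (ε / 8 * Real.log 2) * Real.exp (-Real.log 2) := by
      rw [← Real.exp_add]; congr 1; ring
    rw [e, Real.exp_neg, Real.exp_log (by norm_num)]
    ring
  refine ⟨min (1 / 2) (3 * ε / 4 * Real.log 2 / L), by positivity,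
    lt_of_le_of_lt (min_le_left _ _) (by norm_num), ?_⟩
  intro T w hw hW
  set δ := min (1 / 2) (3 * ε / 4 * Real.log 2 / L) with hδ
  have hδL : L * δ ≤ 3 * ε / 4 * Real.log 2 := by
    have : δ ≤ 3 * ε / 4 * Real.log 2 / L := min_le_right _ _
    rw [le_div_iff₀ hL0] at this
    linarith
  set k := kp T w (1 - ε) with hk
  rcases Nat.eq_zero_or_pos k with hk0 | hk0
  · rw [hk0, pow_zero, mul_one]
    exact (cp_le_one _ _).trans (by norm_num)
  set W := ∑ p ∈ T, w p with hWdef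
  have hkR : (0 : ℝ) < k := by exact_mod_cast hk0
  -- pass to the complement
  have h1 : cp T (fun U => (1 - δ) * W ≤ ∑ p ∈ U, w p) ≤
      cp T (fun U => -(δ * W) ≤ ∑ p ∈ U, -w p) := by
    rw [← cp_compl]
    apply cp_mono
    intro U hU h
    have := sum_sdiff (f := w) hU
    rw [sum_neg_distrib]
    linarith
  refine h1.trans ((cp_chernoff T (fun p => -w p) (L * k / W) _ (by positivity)).trans ?_)
  have e1 : -(L * k / W * -(δ * W)) = L * k * δ := by
    field_simp
  rw [e1]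
  have h2 : ∏ p ∈ T, ((1 + Real.exp (L * k / W * -w p)) / 2) ≤
      ∏ p ∈ T, ((1 + Real.exp (-(L * (ε / 4)))) / 2) ^ (min 1 (k * (w p / W) / (ε / 4))) := by
    apply prod_le_prod
    · intro p _; positivity
    · intro p _
      have := half_exp_le (L := L) (τ := ε / 4) (x := k * (w p / W)) (by positivity) hL0
        (mul_nonneg hkR.le (div_nonneg (hw p) hW.le))
      have e2 : L * k / W * -w p = -(L * (k * (w p / W))) := by ring
      rw [e2]
      exact this
  have h3 : ∏ p ∈ T, ((1 + Real.exp (-(L * (ε / 4)))) / 2) ^ (min 1 (k * (w p / W) / (ε / 4))) =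
      Real.exp (-((1 - ε / 8) * Real.log 2) * ∑ p ∈ T, min 1 (k * (w p / W) / (ε / 4))) := by
    rw [hb, mul_sum, Real.exp_sum]
    apply prod_congr rfl
    intro p _
    rw [← Real.exp_mul]
  have hu1 : ∑ p ∈ T, w p / W = 1 := by
    rw [← sum_div, ← hWdef, div_self hW.ne']
  have h4 := comb (T := T) (u := fun p => w p / W) (fun p => div_nonneg (hw p) hW.le) hu1 hε hε1
    (k := k) hk0 (by
      intro S hS hSc
      have := kp_min hS hSc
      rw [← sum_div, div_lt_iff₀ hW]
      exact this)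
  rw [h3] at h2
  have h5 : Real.exp (-((1 - ε / 8) * Real.log 2) * ∑ p ∈ T, min 1 (k * (w p / W) / (ε / 4))) ≤
      Real.exp (-((1 - ε / 8) * Real.log 2) * (k + k * ε - 1)) := by
    apply Real.exp_le_exp.2
    apply mul_le_mul_of_nonpos_left h4
    have : 0 ≤ (1 - ε / 8) * Real.log 2 := mul_nonneg (by linarith) hl2.le
    linarith
  calc Real.exp (L * k * δ) * ∏ p ∈ T, ((1 + Real.exp (L * k / W * -w p)) / 2)
      ≤ Real.exp (L * k * δ) * Real.exp (-((1 - ε / 8) * Real.log 2) * (k + k * ε - 1)) :=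
        mul_le_mul_of_nonneg_left (h2.trans h5) (Real.exp_pos _).le
    _ = Real.exp (L * k * δ + -((1 - ε / 8) * Real.log 2) * (k + k * ε - 1)) := by
        rw [Real.exp_add]
    _ ≤ Real.exp (Real.log 2 + k * -Real.log 2) := by
        apply Real.exp_le_exp.2
        have f1 : L * k * δ ≤ k * (3 * ε / 4 * Real.log 2) := by nlinarith
        have f2 : (k : ℝ) * (3 * ε / 4) ≤ k * (ε - ε / 8 - ε / 8 * ε) := by
          apply mul_le_mul_of_nonneg_left _ hkR.le
          nlinarith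
        have f3 : (k : ℝ) * (3 * ε / 4) * Real.log 2 ≤ k * (ε - ε / 8 - ε / 8 * ε) * Real.log 2 :=
          mul_le_mul_of_nonneg_right f2 hl2.le
        nlinarith [mul_pos hε hl2]
    _ = 2 * (1 / 2 : ℝ) ^ k := by
        rw [Real.exp_add, Real.exp_log (by norm_num), Real.exp_nat_mul, Real.exp_neg,
          Real.exp_log (by norm_num), one_div]

/-- upper bound near half of the weight -/
lemma kp_upper_half {η : ℝ} (hη : 0 < η) (hη1 : η ≤ 1 / 2) (T : Finset ℕ) (w : ℕ → ℝ)
    (hw : ∀ p, 0 ≤ w p) (hW : 0 < ∑ p ∈ T, w p) :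
    cp T (fun U => (1 / 2 + η) * ∑ p ∈ T, w p ≤ ∑ p ∈ U, w p) ≤
      2 * (1 / 2 : ℝ) ^ kp T w (η ^ 2 / 2) := by
  classical
  set k := kp T w (η ^ 2 / 2) with hk
  rcases Nat.lt_or_ge k 2 with hk0 | hk0
  · refine (cp_le_one _ _).trans ?_
    interval_cases k
    · norm_num
    · norm_num
  set W := ∑ p ∈ T, w p with hWdef
  have hkR : (2 : ℝ) ≤ k := by exact_mod_cast hk0
  set B := T.filter (fun p => η ^ 2 * W ≤ k * w p) with hB
  have hBT : B ⊆ T := filter_subset _ _
  have hBc : B.card < k := by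
    by_contra hcon
    push Not at hcon
    obtain ⟨B', hB', hB'c⟩ := exists_subset_card_eq (by omega : k - 1 ≤ B.card)
    have h1 := kp_min (T := T) (w := w) (t := η ^ 2 / 2) (S := B') (hB'.trans hBT) (by omega)
    have h2 : ∑ p ∈ B', η ^ 2 * W ≤ ∑ p ∈ B', k * w p := by
      apply sum_le_sum
      intro p hp
      have := hB' hp
      rw [hB, mem_filter] at this
      exact this.2
    rw [sum_const, nsmul_eq_mul, ← mul_sum, hB'c] at h2
    push_cast [Nat.cast_sub (by omega : 1 ≤ k)] at h2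
    have h3 : (k : ℝ) * ∑ p ∈ B', w p < k * (η ^ 2 / 2 * W) :=
      mul_lt_mul_of_pos_left h1 (by linarith)
    have h4 : 0 < η ^ 2 * W := by positivity
    nlinarith
  have hBw : ∑ p ∈ B, w p < η ^ 2 / 2 * W := kp_min hBT hBc
  set L : ℝ := 2 / η with hL
  have hL0 : 0 < L := by positivity
  refine (cp_chernoff T w (L * k / W) _ (by positivity)).trans ?_
  have hfac : ∀ x : ℝ, (1 + Real.exp x) / 2 ≤ Real.exp (x / 2 + x ^ 2 / 8) := by
    intro x
    have h2 : (1 + Real.exp x) / 2 = Real.exp (x / 2) * Real.cosh (x / 2) := by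
      rw [Real.cosh_eq, mul_div_assoc', mul_add, ← Real.exp_add, ← Real.exp_add]
      ring_nf
      rw [Real.exp_zero]
      ring
    rw [h2, Real.exp_add]
    apply mul_le_mul_of_nonneg_left _ (Real.exp_pos _).le
    refine (Real.cosh_le_exp_half_sq _).trans ?_
    apply le_of_eq
    congr 1
    ring
  set x : ℕ → ℝ := fun p => L * k / W * w p with hx
  have hx0 : ∀ p, 0 ≤ x p := fun p => mul_nonneg (by positivity) (hw p)
  have h1 : ∏ p ∈ T, ((1 + Real.exp (x p)) / 2) ≤
      Real.exp (∑ p ∈ B, x p + ∑ p ∈ T \ B, (x p / 2 + x p ^ 2 / 8)) := by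
    rw [← prod_sdiff hBT, Real.exp_add, Real.exp_sum, Real.exp_sum, mul_comm]
    apply mul_le_mul
    · apply prod_le_prod
      · intro p _; positivity
      · intro p _
        have := Real.one_le_exp (hx0 p)
        linarith
    · apply prod_le_prod
      · intro p _; positivity
      · intro p _; exact hfac _
    · apply prod_nonneg; intro p _; positivity
    · positivity
  have hxT : ∑ p ∈ T, x p = L * k := by
    rw [hx, ← mul_sum, ← hWdef]
    field_simp
  have hxB : ∑ p ∈ B, x p ≤ L * k * (η ^ 2 / 2) := by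
    rw [hx, ← mul_sum]
    calc L * k / W * ∑ p ∈ B, w p ≤ L * k / W * (η ^ 2 / 2 * W) :=
          mul_le_mul_of_nonneg_left hBw.le (by positivity)
      _ = _ := by field_simp
  have hxC : ∑ p ∈ T \ B, x p ≤ L * k := by
    rw [← hxT]
    exact sum_le_sum_of_subset_of_nonneg sdiff_subset fun p _ _ => hx0 p
  have hx2 : ∑ p ∈ T \ B, x p ^ 2 ≤ L * η ^ 2 * (L * k) := by
    calc ∑ p ∈ T \ B, x p ^ 2 ≤ ∑ p ∈ T \ B, L * η ^ 2 * x p := by
          apply sum_le_sum
          intro p hp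
          rw [mem_sdiff, hB, mem_filter] at hp
          have hp2 : k * w p < η ^ 2 * W := by
            by_contra hcon
            push Not at hcon
            exact hp.2 ⟨hp.1, hcon⟩
          rw [sq (x p)]
          apply mul_le_mul_of_nonneg_right _ (hx0 p)
          calc x p = L / W * (k * w p) := by rw [hx]; ring
            _ ≤ L / W * (η ^ 2 * W) := mul_le_mul_of_nonneg_left hp2.le (by positivity)
            _ = _ := by field_simp
      _ = L * η ^ 2 * ∑ p ∈ T \ B, x p := by rw [mul_sum]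
      _ ≤ _ := mul_le_mul_of_nonneg_left hxC (by positivity)
  have hexp : ∑ p ∈ B, x p + ∑ p ∈ T \ B, (x p / 2 + x p ^ 2 / 8) ≤
      L * k * (η ^ 2 / 2) + L * k / 2 + L * η ^ 2 * (L * k) / 8 := by
    rw [sum_add_distrib, ← sum_div, ← sum_div]
    linarith
  calc Real.exp (-(L * k / W * ((1 / 2 + η) * W))) * ∏ p ∈ T, ((1 + Real.exp (L * k / W * w p)) / 2)
      ≤ Real.exp (-(L * k / W * ((1 / 2 + η) * W))) *
        Real.exp (L * k * (η ^ 2 / 2) + L * k / 2 + L * η ^ 2 * (L * k) / 8) := by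
        apply mul_le_mul_of_nonneg_left _ (Real.exp_pos _).le
        exact h1.trans (Real.exp_le_exp.2 hexp)
    _ = Real.exp (-(k * (3 / 2 - η))) := by
        rw [← Real.exp_add]
        congr 1
        rw [hL]
        field_simp
        ring
    _ ≤ Real.exp (k * -Real.log 2) := by
        apply Real.exp_le_exp.2
        have hl := Real.log_two_lt_d9
        nlinarith
    _ ≤ 2 * (1 / 2 : ℝ) ^ k := by
        rw [Real.exp_nat_mul, Real.exp_neg, Real.exp_log (by norm_num), one_div]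
        have : (0 : ℝ) ≤ (2 : ℝ)⁻¹ ^ k := by positivity
        linarith

end

end Pool.Agent.Helper42.RP
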