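import Pool.Agent.Helper42.RP.Third

/-! The Borel-Cantelli lemma for systems of weights, conclusion. -/

namespace Pool.Agent.Helper42.RP

open Finset Filter

namespace Sys
variable {S : Sys} {c η : ℝ}

/-- `n` is good. -/
def Gd (S : Sys) (c η : ℝ) (n : ℕ) : Prop :=
  0 < n ∧ Big η n ∧ 0 < S.P c n ∧ S.kap c n ≤ 1 + 2 * Real.log n

/-- the constant -/
noncomputable def KK (η : ℝ) : ℝ :=
  ∑' z : ℕ × ℕ, Real.exp (-(η ^ 2 / 32)) ^ z.1 * Real.exp (-(η ^ 2 / 32)) ^ z.2

lemma x_lt (hη : 0 < η) : Real.exp (-(η ^ 2 / 32)) < 1 := by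
  rw [Real.exp_lt_one_iff]
  have : 0 < η ^ 2 / 32 := by positivity
  linarith

lemma summable_KK (hη : 0 < η) : Summable fun z : ℕ × ℕ =>
    Real.exp (-(η ^ 2 / 32)) ^ z.1 * Real.exp (-(η ^ 2 / 32)) ^ z.2 := by
  have h := summable_geometric_of_lt_one (Real.exp_pos _).le (x_lt hη)
  exact h.mul_of_nonneg h (fun n => by positivity) (fun n => by positivity)

lemma KK_nonneg : 0 ≤ KK η := tsum_nonneg fun z => by positivity

lemma sum_E (hη : 0 < η) (I : Finset ℕ) {m : ℕ} (hm : 0 < m) :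
    ∑ n ∈ I.filter (fun n => m < n), Real.exp (-(η ^ 2 / 16 * ((n : ℝ) / Nat.gcd n m))) ≤
      KK η := by
  classical
  set f : ℕ → ℕ × ℕ := fun n => (n / Nat.gcd n m, m / Nat.gcd n m) with hf
  have hinj : Set.InjOn f (I.filter fun n => m < n) := by
    intro n hn n' hn' h
    rw [coe_filter] at hn hn'
    simp only [hf, Prod.mk.injEq] at h
    have hg : Nat.gcd n m ∣ m := Nat.gcd_dvd_right n m
    have hg' : Nat.gcd n' m ∣ m := Nat.gcd_dvd_right n' m
    have e1 : Nat.gcd n m = Nat.gcd n' m := by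
      have a1 := Nat.div_mul_cancel hg
      have a2 := Nat.div_mul_cancel hg'
      rw [h.2] at a1
      have hpos : 0 < m / Nat.gcd n' m := Nat.div_pos (Nat.le_of_dvd hm hg')
        (Nat.gcd_pos_of_pos_right _ hm)
      exact Nat.eq_of_mul_eq_mul_left hpos (a1.trans a2.symm)
    have a3 := Nat.div_mul_cancel (Nat.gcd_dvd_left n m)
    have a4 := Nat.div_mul_cancel (Nat.gcd_dvd_left n' m)
    rw [← a3, ← a4, h.1, e1]
  have hle : ∀ n ∈ I.filter (fun n => m < n),
      Real.exp (-(η ^ 2 / 16 * ((n : ℝ) / Nat.gcd n m))) ≤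
        Real.exp (-(η ^ 2 / 32)) ^ (f n).1 * Real.exp (-(η ^ 2 / 32)) ^ (f n).2 := by
    intro n hn
    rw [mem_filter] at hn
    have hn0 : 0 < n := by omega
    have hg : 0 < Nat.gcd n m := Nat.gcd_pos_of_pos_left _ hn0
    have e1 : ((n / Nat.gcd n m : ℕ) : ℝ) = (n : ℝ) / Nat.gcd n m :=
      Nat.cast_div (Nat.gcd_dvd_left n m) (Nat.cast_ne_zero.2 hg.ne')
    have e2 : ((m / Nat.gcd n m : ℕ) : ℝ) ≤ ((n / Nat.gcd n m : ℕ) : ℝ) :=
      Nat.cast_le.2 (Nat.div_le_div_right hn.2.le)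
    simp only [hf]
    rw [← Real.exp_nat_mul, ← Real.exp_nat_mul, ← Real.exp_add]
    apply Real.exp_le_exp.2
    rw [← e1]
    have : 0 < η ^ 2 := by positivity
    nlinarith
  refine (sum_le_sum hle).trans ?_
  rw [← sum_image (f := fun z : ℕ × ℕ =>
    Real.exp (-(η ^ 2 / 32)) ^ z.1 * Real.exp (-(η ^ 2 / 32)) ^ z.2) hinj]
  exact (summable_KK hη).sum_le_tsum _ fun z _ => by positivity

lemma second_moment (hη : 0 < η) (I : Finset ℕ) (hI : ∀ n ∈ I, Gd S c η n) :
    ∑ n ∈ I, ∑ m ∈ I, S.rho c η n * S.rho c η m * cp (S.T n ∪ S.T m)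
      (fun U => S.gam c η n (U ∩ S.T n) ∧ S.gam c η m (U ∩ S.T m)) ≤
    (∑ n ∈ I, S.q c η n) ^ 2 + (1 + 2 * (Real.exp 1 * KK η)) * ∑ n ∈ I, S.q c η n := by
  classical
  set E : ℕ → ℕ → ℝ := fun n m => Real.exp 1 *
    Real.exp (-(η ^ 2 / 16 * ((n : ℝ) / Nat.gcd n m))) with hE
  have hEpos : ∀ n m, 0 < E n m := fun n m => by positivity
  have hq : ∀ n ∈ I, 0 < S.q c η n := fun n hn =>
    q_pos (hI n hn).1 hη (hI n hn).2.2.1
  have hterm : ∀ n ∈ I, ∀ m ∈ I, S.rho c η n * S.rho c η m * cp (S.T n ∪ S.T m)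
      (fun U => S.gam c η n (U ∩ S.T n) ∧ S.gam c η m (U ∩ S.T m)) ≤
      S.q c η n * S.q c η m + (if n = m then S.q c η n else 0) +
        (if m < n then E n m * S.q c η m else 0) + (if n < m then E m n * S.q c η n else 0) := by
    intro n hn m hm
    obtain ⟨hn0, hnb, hnP, hnk⟩ := hI n hn
    obtain ⟨hm0, hmb, hmP, hmk⟩ := hI m hm
    have hqn := hq n hn
    have hqm := hq m hm
    rcases lt_trichotomy m n with h | h | h
    · rw [if_neg (by omega), if_pos h, if_neg (by omega), add_zero, add_zero]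
      exact pair_bound hη hm0 h hnb hnP hmP hnk
    · subst h
      rw [if_pos rfl, if_neg (lt_irrefl _), add_zero, add_zero]
      have h1 := pair_le' (S := S) (c := c) (η := η) m m
      have hr0 := rho_nonneg hm0 hη hmP
      have hr1 := rho_le_one hm0 hη hmP
      have h2 : S.rho c η m * S.rho c η m * cp (S.T m ∪ S.T m)
        (fun U => S.gam c η m (U ∩ S.T m) ∧ S.gam c η m (U ∩ S.T m)) ≤
          1 * S.rho c η m * S.P' c η m :=
        mul_le_mul (mul_le_mul_of_nonneg_right hr1 hr0) h1 (cp_nonneg _ _)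
          (by rw [one_mul]; exact hr0)
      rw [one_mul, rho_mul hm0 hη hmP] at h2
      nlinarith
    · rw [if_neg (by omega), if_neg (by omega), if_pos h, add_zero, add_zero]
      have h1 := pair_bound hη hn0 h hmb hmP hnP hmk
      have h2 : cp (S.T m ∪ S.T n)
          (fun U => S.gam c η m (U ∩ S.T m) ∧ S.gam c η n (U ∩ S.T n)) =
          cp (S.T n ∪ S.T m)
          (fun U => S.gam c η n (U ∩ S.T n) ∧ S.gam c η m (U ∩ S.T m)) := by
        rw [union_comm]
        apply cp_congr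
        intro U _
        exact and_comm
      rw [h2] at h1
      simp only [hE]
      linarith
  have hsum : ∀ m ∈ I, ∑ n ∈ I, (if m < n then E n m else 0) ≤ Real.exp 1 * KK η := by
    intro m hm
    rw [← sum_filter]
    simp only [hE]
    rw [← mul_sum]
    exact mul_le_mul_of_nonneg_left (sum_E hη I (hI m hm).1) (Real.exp_pos _).le
  calc _ ≤ ∑ n ∈ I, ∑ m ∈ I, (S.q c η n * S.q c η m + (if n = m then S.q c η n else 0) +
        (if m < n then E n m * S.q c η m else 0) +
        (if n < m then E m n * S.q c η n else 0)) :=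
        sum_le_sum fun n hn => sum_le_sum fun m hm => hterm n hn m hm
    _ = (∑ n ∈ I, S.q c η n) ^ 2 + ∑ n ∈ I, S.q c η n +
        ∑ m ∈ I, S.q c η m * ∑ n ∈ I, (if m < n then E n m else 0) +
        ∑ n ∈ I, S.q c η n * ∑ m ∈ I, (if n < m then E m n else 0) := by
        simp only [sum_add_distrib]
        congr 1
        · congr 1
          · congr 1
            · rw [sq, sum_mul_sum]
            · apply sum_congr rfl
              intro n hn
              rw [sum_ite_eq, if_pos hn]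
          · rw [sum_comm]
            apply sum_congr rfl; intro m _
            rw [mul_sum]
            apply sum_congr rfl; intro n _
            split_ifs <;> ring
        · apply sum_congr rfl; intro n _
          rw [mul_sum]
          apply sum_congr rfl; intro m _
          split_ifs <;> ring
    _ ≤ (∑ n ∈ I, S.q c η n) ^ 2 + ∑ n ∈ I, S.q c η n +
        ∑ m ∈ I, S.q c η m * (Real.exp 1 * KK η) +
        ∑ n ∈ I, S.q c η n * (Real.exp 1 * KK η) := by
        gcongr with m hm n hn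
        · exact (hq m hm).le
        · exact hsum m hm
        · exact (hq n hn).le
        · exact hsum n hn
    _ = _ := by
        rw [← sum_mul]; ring

/-- The Borel-Cantelli lemma: divergence gives a large value in every far window with
probability bounded below. -/
theorem bc2 (hη : 0 < η) (hS : ¬ Summable (S.P c)) : ∃ c0 : ℝ, 0 < c0 ∧ ∀ N : ℕ, ∃ N' : ℕ,
    c0 ≤ cp ((Ico N N').biUnion S.T)
      (fun U => ∃ n ∈ Ico N N', (c - η) * n ≤ ∑ p ∈ U ∩ S.T n, S.w n p) := by
  classical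
  set C : ℝ := 1 + 2 * (Real.exp 1 * KK η) with hC
  have hC0 : 0 < C := by have := KK_nonneg (η := η); positivity
  refine ⟨1 / (4 * (1 + C)), by positivity, fun N => ?_⟩
  -- divergence of the good part
  set g : ℕ → ℝ := fun n => if Gd S c η n then S.P c n else 0 with hg
  have hg0 : ∀ n, 0 ≤ g n := by
    intro n; simp only [hg]; split_ifs
    · exact P_nonneg n
    · exact le_rfl
  have hgS : ¬ Summable g := by
    intro hs
    apply hS
    have h2 : Summable fun n : ℕ => 1 / (n : ℝ) ^ 2 := by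
      exact Real.summable_one_div_nat_pow.2 (by norm_num : 1 < 2)
    have h3 := hs.add h2
    obtain ⟨n0, hn0⟩ := eventually_atTop.1 ((big_eventually hη).and (eventually_gt_atTop 0))
    rw [← summable_nat_add_iff n0] at h3 ⊢
    refine Summable.of_nonneg_of_le (fun n => P_nonneg _) (fun n => ?_) h3
    obtain ⟨hb, hpos⟩ := hn0 (n + n0) (by omega)
    by_cases hgd : Gd S c η (n + n0)
    · simp only [hg, if_pos hgd]
      have : (0 : ℝ) ≤ 1 / ((n + n0 : ℕ) : ℝ) ^ 2 := by positivity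
      linarith
    · simp only [hg, if_neg hgd, zero_add]
      by_contra hcon
      push Not at hcon
      apply hgd
      have hpos' : (0 : ℝ) < ((n + n0 : ℕ) : ℝ) := Nat.cast_pos.2 hpos
      have hP : 0 < S.P c (n + n0) := lt_trans (by positivity) hcon
      refine ⟨hpos, hb, hP, ?_⟩
      unfold kap
      have h4 := Real.log_lt_log (by positivity) hcon
      rw [Real.log_div one_ne_zero (by positivity), Real.log_one, Real.log_pow] at h4
      push_cast at h4 ⊢
      linarith
  -- partial sums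
  have htend : Tendsto (fun k => ∑ n ∈ range k, g (n + N)) atTop atTop := by
    rw [← summable_nat_add_iff N] at hgS
    exact (not_summable_iff_tendsto_nat_atTop_of_nonneg fun n => hg0 _).1 hgS
  obtain ⟨k, hk⟩ := (htend.eventually_ge_atTop 2).exists
  refine ⟨N + k, ?_⟩
  set I := (Ico N (N + k)).filter fun n => Gd S c η n with hI
  have hIg : ∀ n ∈ I, Gd S c η n := fun n hn => (mem_filter.1 hn).2
  have hsumP : 2 ≤ ∑ n ∈ I, S.P c n := by
    rw [hI, sum_filter]
    calc (2 : ℝ) ≤ ∑ n ∈ range k, g (n + N) := hk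
      _ = ∑ n ∈ Ico N (N + k), g n := by
          rw [sum_Ico_eq_sum_range]
          simp only [Nat.add_sub_cancel_left]
          apply sum_congr rfl; intro n _; rw [add_comm]
      _ = _ := rfl
  have hq1 : 1 ≤ ∑ n ∈ I, S.q c η n := by
    have : ∑ n ∈ I, S.P c n / 2 ≤ ∑ n ∈ I, S.q c η n :=
      sum_le_sum fun n hn => q_ge (hIg n hn).1 hη (hIg n hn).2.2.1
    rw [← sum_div] at this
    linarith
  set Q := ∑ n ∈ I, S.q c η n with hQ
  have hs : Q / 2 ≤ ∑ n ∈ I, S.rho c η n * cp (S.T n) (S.gam c η n) := by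
    rw [hQ, sum_div]
    apply sum_le_sum
    intro n hn
    rw [← rho_mul (hIg n hn).1 hη (hIg n hn).2.2.1]
    have h1 := gam_ge (S := S) (c := c) (η := η) n
    have h2 := rho_nonneg (hIg n hn).1 hη (hIg n hn).2.2.1
    nlinarith
  have hce := cp_chung_erdos I S.T (fun n => S.gam c η n) (S.rho c η)
  have hD := second_moment hη I hIg
  set D := ∑ n ∈ I, ∑ m ∈ I, S.rho c η n * S.rho c η m * cp (S.T n ∪ S.T m)
      (fun U => S.gam c η n (U ∩ S.T n) ∧ S.gam c η m (U ∩ S.T m)) with hDdef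
  set A := cp (I.biUnion S.T) (fun U => ∃ n ∈ I, S.gam c η n (U ∩ S.T n)) with hA
  have hA0 : 0 ≤ A := cp_nonneg _ _
  have hD2 : D ≤ (1 + C) * Q ^ 2 := by
    rw [← hQ, ← hC] at hD
    nlinarith [mul_nonneg hC0.le (mul_nonneg (by linarith : (0 : ℝ) ≤ Q) (by linarith : (0:ℝ) ≤ Q - 1))]
  have h1 : (Q / 2) ^ 2 ≤ A * ((1 + C) * Q ^ 2) := by
    calc (Q / 2) ^ 2 ≤ (∑ n ∈ I, S.rho c η n * cp (S.T n) (S.gam c η n)) ^ 2 := by
          apply pow_le_pow_left₀ (by linarith) hs
      _ ≤ A * D := hce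
      _ ≤ _ := mul_le_mul_of_nonneg_left hD2 hA0
  have h2 : 1 / (4 * (1 + C)) ≤ A := by
    rw [div_le_iff₀ (by positivity)]
    have hQ2 : 0 < Q ^ 2 := by positivity
    have h3 : Q ^ 2 * 1 ≤ Q ^ 2 * (A * (4 * (1 + C))) := by nlinarith
    exact le_of_mul_le_mul_left h3 hQ2
  refine h2.trans ?_
  have hsub : I.biUnion S.T ⊆ (Ico N (N + k)).biUnion S.T :=
    biUnion_subset_biUnion_of_subset_left _ (filter_subset _ _)
  rw [hA, ← cp_ext hsub]
  apply cp_mono
  rintro U _ ⟨n, hn, h⟩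
  have hnI := (mem_filter.1 hn).1
  refine ⟨n, hnI, ?_⟩
  have e1 : U ∩ I.biUnion S.T ∩ S.T n = U ∩ S.T n := by
    rw [inter_assoc, inter_eq_right.2 (subset_biUnion_of_mem S.T hn)]
  rw [e1] at h
  exact gam_imp hη.le inter_subset_right h

end Sys

end Pool.Agent.Helper42.RP
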