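import Mathlib
import Pool.Agent.Helper42.RP.Fourth

/-! The random set: cylinder probabilities. -/

namespace Pool.Agent.Helper42.RP

open Finset MeasureTheory ProbabilityTheory Filter

/-- `Q` is a random set of primes, every prime being in it with probability `1/2`,
independently. -/
structure Fair {Ω : Type*} [MeasurableSpace Ω] (P : Measure Ω) (Q : Ω → Set ℕ) : Prop where
  meas : ∀ p : Nat.Primes, MeasurableSet {ω | (p : ℕ) ∈ Q ω}
  half : ∀ p : Nat.Primes, P {ω | (p : ℕ) ∈ Q ω} = 1 / 2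
  indep : iIndepSet (fun p : Nat.Primes => {ω | (p : ℕ) ∈ Q ω}) P

variable {Ω : Type*} {Q : Ω → Set ℕ}

/-- the elements of `T` which are kept -/
noncomputable def kept (Q : Ω → Set ℕ) (T : Finset ℕ) (ω : Ω) : Finset ℕ :=
  @Finset.filter _ (fun p => p ∉ Q ω) (fun _ => Classical.propDecidable _) T

lemma mem_kept {T : Finset ℕ} {ω : Ω} {p : ℕ} : p ∈ kept Q T ω ↔ p ∈ T ∧ p ∉ Q ω := by
  classical
  unfold kept
  simp only [mem_filter]

lemma kept_subset (T : Finset ℕ) (ω : Ω) : kept Q T ω ⊆ T := fun _ hp => (mem_kept.1 hp).1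

lemma kept_inter {T T' : Finset ℕ} (h : T ⊆ T') (ω : Ω) : kept Q T' ω ∩ T = kept Q T ω := by
  ext p
  rw [mem_inter, mem_kept, mem_kept]
  exact ⟨fun h1 => ⟨h1.2, h1.1.2⟩, fun h1 => ⟨⟨h h1.1, h1.2⟩, h1.1⟩⟩

lemma kept_eq_iff {T V : Finset ℕ} (hV : V ⊆ T) (ω : Ω) :
    kept Q T ω = V ↔ ∀ p ∈ T, (p ∈ Q ω ↔ p ∉ V) := by
  constructor
  · rintro rfl p hp
    rw [mem_kept]
    constructor
    · intro h h2; exact h2.2 h
    · intro h; by_contra h2; exact h ⟨hp, h2⟩
  · intro h
    ext p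
    rw [mem_kept]
    constructor
    · intro h2; by_contra h3; exact h2.2 ((h p h2.1).2 h3)
    · intro h2; exact ⟨hV h2, fun h3 => ((h p (hV h2)).1 h3) h2⟩

/-- measurability of cylinder events for any `σ`-algebra -/
lemma measurable_kept {m : MeasurableSpace Ω} {T : Finset ℕ}
    (hm : ∀ p ∈ T, MeasurableSet[m] {ω | p ∈ Q ω}) (φ : Finset ℕ → Prop) :
    MeasurableSet[m] {ω | φ (kept Q T ω)} := by
  classical
  have h1 : {ω | φ (kept Q T ω)} =
      ⋃ V ∈ (T.powerset.filter φ : Finset (Finset ℕ)), {ω | kept Q T ω = V} := by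
    ext ω
    simp only [Set.mem_iUnion, Set.mem_ofPred_eq, mem_filter, mem_powerset, exists_prop]
    constructor
    · intro h; exact ⟨_, ⟨kept_subset T ω, h⟩, rfl⟩
    · rintro ⟨V, ⟨-, h⟩, rfl⟩; exact h
  rw [h1]
  refine Finset.measurableSet_biUnion _ fun V hV => ?_
  rw [mem_filter, mem_powerset] at hV
  have h2 : {ω | kept Q T ω = V} =
      ⋂ p ∈ T, (if p ∈ V then {ω | p ∈ Q ω}ᶜ else {ω | p ∈ Q ω}) := by
    ext ω
    simp only [Set.mem_iInter, Set.mem_ofPred_eq]
    rw [kept_eq_iff hV.1]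
    apply forall_congr'; intro p
    apply forall_congr'; intro _
    by_cases hp : p ∈ V
    · simp [hp]
    · simp [hp]
  rw [h2]
  refine Finset.measurableSet_biInter _ fun p hp => ?_
  split_ifs
  · exact (hm p hp).compl
  · exact hm p hp

variable [MeasurableSpace Ω] {P : Measure Ω}

lemma Fair.isProb (h : Fair P Q) : IsProbabilityMeasure P := h.indep.isProbabilityMeasure

lemma Fair.meas' (h : Fair P Q) {p : ℕ} (hp : p.Prime) : MeasurableSet {ω | p ∈ Q ω} :=
  h.meas ⟨p, hp⟩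

/-- probability of a cylinder -/
lemma Fair.cyl (h : Fair P Q) {T V : Finset ℕ} (hT : ∀ p ∈ T, p.Prime) (hV : V ⊆ T) :
    P {ω | kept Q T ω = V} = (1 / 2) ^ T.card := by
  classical
  have := h.isProb
  let g : {p // p ∈ T} ↪ Nat.Primes := ⟨fun p => ⟨p.1, hT p.1 p.2⟩, fun p q hpq => by
    apply Subtype.ext
    exact congrArg (fun r : Nat.Primes => (r : ℕ)) hpq⟩
  let S : Finset Nat.Primes := T.attach.map g
  have hS1 : ∀ p : Nat.Primes, p ∈ S → (p : ℕ) ∈ T := by
    intro p hp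
    obtain ⟨q, -, rfl⟩ := mem_map.1 hp
    exact q.2
  have hS2 : ∀ p (hp : p ∈ T), (⟨p, hT p hp⟩ : Nat.Primes) ∈ S := by
    intro p hp
    exact mem_map.2 ⟨⟨p, hp⟩, mem_attach _ _, rfl⟩
  let f : Nat.Primes → Set Ω := fun p =>
    if (p : ℕ) ∈ V then {ω | (p : ℕ) ∈ Q ω}ᶜ else {ω | (p : ℕ) ∈ Q ω}
  have h1 : {ω | kept Q T ω = V} = ⋂ i ∈ S, f i := by
    ext ω
    simp only [Set.mem_iInter, Set.mem_ofPred_eq]
    rw [kept_eq_iff hV]
    constructor
    · intro h2 p hp
      have hpT : (p : ℕ) ∈ T := hS1 p hp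
      have := h2 p hpT
      simp only [f]
      by_cases hpV : (p : ℕ) ∈ V
      · rw [if_pos hpV]; intro h3; exact this.1 h3 hpV
      · rw [if_neg hpV]; exact this.2 hpV
    · intro h2 p hp
      have := h2 _ (hS2 p hp)
      simp only [f] at this
      by_cases hpV : p ∈ V
      · rw [if_pos hpV] at this
        exact ⟨fun h3 => absurd h3 this, fun h3 => absurd hpV h3⟩
      · rw [if_neg hpV] at this
        exact ⟨fun _ => hpV, fun _ => this⟩
  rw [h1, (iIndepSet_iff _ _).1 h.indep S]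
  · have h2 : ∀ i ∈ S, P (f i) = 1 / 2 := by
      intro i _
      simp only [f]
      split_ifs
      · rw [prob_compl_eq_one_sub (h.meas i), h.half i]
        simp
      · exact h.half i
    rw [prod_congr rfl h2, prod_const]
    congr 1
    simp only [S]
    rw [card_map, card_attach]
  · intro i _
    simp only [f]
    have h3 : MeasurableSet[MeasurableSpace.generateFrom {{ω | (i : ℕ) ∈ Q ω}}]
        {ω | (i : ℕ) ∈ Q ω} := MeasurableSpace.measurableSet_generateFrom rfl
    split_ifs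
    · exact h3.compl
    · exact h3

/-- probability of an event depending on finitely many primes -/
lemma Fair.prob_eq (h : Fair P Q) {T : Finset ℕ} (hT : ∀ p ∈ T, p.Prime)
    (φ : Finset ℕ → Prop) : P {ω | φ (kept Q T ω)} = ENNReal.ofReal (cp T φ) := by
  classical
  have h1 : {ω | φ (kept Q T ω)} =
      ⋃ V ∈ (T.powerset.filter φ : Finset (Finset ℕ)), {ω | kept Q T ω = V} := by
    ext ω
    simp only [Set.mem_iUnion, Set.mem_ofPred_eq, mem_filter, mem_powerset, exists_prop]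
    constructor
    · intro h; exact ⟨_, ⟨kept_subset T ω, h⟩, rfl⟩
    · rintro ⟨V, ⟨-, h⟩, rfl⟩; exact h
  rw [h1, measure_biUnion_finset]
  · have h2 : ∀ V ∈ (T.powerset.filter φ : Finset (Finset ℕ)),
        P {ω | kept Q T ω = V} = (1 / 2) ^ T.card := fun V hV =>
      h.cyl hT (mem_powerset.1 (mem_filter.1 hV).1)
    rw [sum_congr rfl h2, sum_const, cp_eq, nsmul_eq_mul]
    rw [ENNReal.ofReal_div_of_pos (by positivity), ENNReal.ofReal_natCast,
      ENNReal.ofReal_pow (by norm_num), ENNReal.ofReal_ofNat]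
    simp only [div_eq_mul_inv, one_mul, ENNReal.inv_pow]
  · intro V _ V' _ hVV'
    rw [Function.onFun, Set.disjoint_left]
    intro ω h3 h4
    exact hVV' (h3.symm.trans h4)
  · intro V _
    exact measurable_kept (fun p hp => h.meas' (hT p hp)) (fun W => W = V)

end Pool.Agent.Helper42.RP
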