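import Mathlib
import Pool.Agent.Helper42.RP.Prob

/-! The zero-one law and the almost sure value of the upper limit. -/

namespace Pool.Agent.Helper42.RP

open Finset MeasureTheory ProbabilityTheory Filter Topology

variable {Ω : Type*} {Q : Ω → Set ℕ}

/-- the random weight -/
noncomputable def Sys.X (S : Sys) (Q : Ω → Set ℕ) (n : ℕ) (ω : Ω) : ℝ :=
  ∑ p ∈ kept Q (S.T n) ω, S.w n p

/-- the contribution of the large primes -/
noncomputable def Sys.Xa (S : Sys) (Q : Ω → Set ℕ) (a n : ℕ) (ω : Ω) : ℝ :=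
  ∑ p ∈ kept Q ((S.T n).filter (fun p => a ≤ p)) ω, S.w n p

/-- the tail event -/
def Sys.E (S : Sys) (Q : Ω → Set ℕ) (c : ℝ) : Set Ω :=
  {ω | ∀ k : ℕ, ∃ᶠ n : ℕ in atTop, (c - 1 / ((k : ℝ) + 1)) * n ≤ S.X Q n ω}

namespace Sys

variable {S : Sys}

lemma X_nonneg (n : ℕ) (ω : Ω) : 0 ≤ S.X Q n ω := sum_nonneg fun p _ => S.nn n p

lemma X_le (n : ℕ) (ω : Ω) : S.X Q n ω ≤ n :=
  (sum_le_sum_of_subset_of_nonneg (kept_subset _ _) fun p _ _ => S.nn n p).trans (S.tot n)

lemma Xa_le (a n : ℕ) (ω : Ω) : S.Xa Q a n ω ≤ S.X Q n ω := by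
  apply sum_le_sum_of_subset_of_nonneg _ fun p _ _ => S.nn n p
  intro p hp
  rw [mem_kept] at hp ⊢
  exact ⟨(mem_filter.1 hp.1).1, hp.2⟩

lemma le_Xa (a n : ℕ) (ω : Ω) :
    S.X Q n ω ≤ S.Xa Q a n ω + ∑ p ∈ (S.T n).filter (fun p => p < a), S.w n p := by
  classical
  have h1 : kept Q (S.T n) ω ⊆ kept Q ((S.T n).filter (fun p => a ≤ p)) ω ∪
      (S.T n).filter (fun p => p < a) := by
    intro p hp
    rw [mem_kept] at hp
    rw [mem_union, mem_kept, mem_filter, mem_filter]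
    rcases le_or_gt a p with h | h
    · exact Or.inl ⟨⟨hp.1, h⟩, hp.2⟩
    · exact Or.inr ⟨hp.1, h⟩
  refine (sum_le_sum_of_subset_of_nonneg h1 fun p _ _ => S.nn n p).trans ?_
  rw [Xa, ← sum_union_inter]
  linarith [sum_nonneg (s := kept Q ((S.T n).filter (fun p => a ≤ p)) ω ∩
      (S.T n).filter (fun p => p < a)) (f := fun p => S.w n p) fun p _ => S.nn n p]

/-- a fixed prime has weight `o(n)` -/
lemma single_small (p : ℕ) {ε : ℝ} (hε : 0 < ε) :
    ∀ᶠ n : ℕ in atTop, (if p ∈ S.T n then S.w n p else 0) ≤ ε * n := by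
  by_cases hm : ∃ m, 0 < m ∧ p ∈ S.T m
  · obtain ⟨m, hm0, hpm⟩ := hm
    have hlog : (fun n : ℕ => Real.log (n : ℝ)) =o[atTop] fun n : ℕ => (n : ℝ) :=
      Real.isLittleO_log_id_atTop.comp_tendsto tendsto_natCast_atTop_atTop
    have h1 : ∀ᶠ n : ℕ in atTop, Real.log (n : ℝ) ≤ ε / 2 * n := by
      have := hlog.bound (c := ε / 2) (by positivity)
      filter_upwards [this] with n hn
      rw [Real.norm_natCast] at hn
      exact (Real.le_norm_self _).trans hn
    have h2 : ∀ᶠ n : ℕ in atTop, (m : ℝ) * Real.log 2 ≤ ε / 2 * n := by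
      have : Tendsto (fun n : ℕ => ε / 2 * (n : ℝ)) atTop atTop :=
        tendsto_natCast_atTop_atTop.const_mul_atTop (by positivity)
      exact this.eventually_ge_atTop _
    filter_upwards [h1, h2, eventually_gt_atTop m] with n hn1 hn2 hn3
    split_ifs with hp
    · have h3 := S.ov m n hm0 hn3
      have h4 : S.w n p ≤ ∑ q ∈ S.T n ∩ S.T m, S.w n q :=
        single_le_sum (f := fun q => S.w n q) (fun q _ => S.nn n q) (mem_inter.2 ⟨hp, hpm⟩)
      have hg0 : 0 < Nat.gcd n m := Nat.gcd_pos_of_pos_right n hm0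
      have hg1 : (1 : ℝ) ≤ (Nat.gcd n m : ℝ) := by exact_mod_cast hg0
      have hn0 : (0 : ℝ) < n := by exact_mod_cast (by omega : 0 < n)
      have h5 : Real.log ((n : ℝ) / Nat.gcd n m) ≤ Real.log n := by
        apply Real.log_le_log (by positivity)
        exact div_le_self hn0.le hg1
      have h6 : (Nat.gcd n m : ℝ) * Real.log 2 ≤ m * Real.log 2 := by
        apply mul_le_mul_of_nonneg_right _ (Real.log_nonneg (by norm_num))
        exact_mod_cast Nat.le_of_dvd hm0 (Nat.gcd_dvd_right n m)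
      linarith
    · positivity
  · push Not at hm
    filter_upwards [eventually_gt_atTop 0] with n hn
    rw [if_neg (hm n hn)]
    positivity

lemma small (a : ℕ) {ε : ℝ} (hε : 0 < ε) :
    ∀ᶠ n : ℕ in atTop, ∑ p ∈ (S.T n).filter (fun p => p < a), S.w n p ≤ ε * n := by
  classical
  have h1 : ∀ᶠ n : ℕ in atTop, ∀ p ∈ range a,
      (if p ∈ S.T n then S.w n p else 0) ≤ ε / (a + 1) * n := by
    rw [Filter.eventually_all_finset]
    intro p _
    exact single_small p (by positivity)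
  filter_upwards [h1] with n hn
  have h2 : ∑ p ∈ (S.T n).filter (fun p => p < a), S.w n p =
      ∑ p ∈ range a, (if p ∈ S.T n then S.w n p else 0) := by
    rw [← sum_filter]
    apply sum_congr _ fun _ _ => rfl
    ext p
    rw [mem_filter, mem_filter, mem_range, and_comm]
  rw [h2]
  refine (sum_le_sum hn).trans ?_
  rw [sum_const, card_range, nsmul_eq_mul]
  have h3 : (a : ℝ) * (ε / (a + 1) * n) = (a / (a + 1)) * (ε * n) := by
    field_simp
  rw [h3]
  apply mul_le_of_le_one_left (by positivity)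
  rw [div_le_one (by positivity)]
  linarith

lemma E_eq (a : ℕ) (c : ℝ) :
    S.E Q c = {ω | ∀ k : ℕ, ∃ᶠ n : ℕ in atTop, (c - 1 / ((k : ℝ) + 1)) * n ≤ S.Xa Q a n ω} := by
  ext ω
  constructor
  · intro h k
    have h1 := h (2 * k + 1)
    have hk : (0 : ℝ) < 1 / (2 * ((k : ℝ) + 1)) := by positivity
    refine (h1.and_eventually (small (S := S) a hk)).mono ?_
    rintro n ⟨h2, h3⟩
    have h4 := le_Xa (S := S) (Q := Q) a n ω
    have e1 : (1 : ℝ) / (((2 * k + 1 : ℕ) : ℝ) + 1) = 1 / (2 * ((k : ℝ) + 1)) := by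
      push_cast; congr 1; ring
    have e2 : (1 : ℝ) / ((k : ℝ) + 1) = 2 * (1 / (2 * ((k : ℝ) + 1))) := by
      field_simp
    rw [e1] at h2
    rw [e2]
    nlinarith
  · intro h k
    exact (h k).mono fun n hn => hn.trans (Xa_le a n ω)

lemma measurable_Xa {m : MeasurableSpace Ω} (a n : ℕ)
    (hm : ∀ p ∈ S.T n, a ≤ p → MeasurableSet[m] {ω | p ∈ Q ω}) (x : ℝ) :
    MeasurableSet[m] {ω | x ≤ S.Xa Q a n ω} := by
  refine measurable_kept (m := m) (T := (S.T n).filter (fun p => a ≤ p)) ?_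
    (fun U => x ≤ ∑ p ∈ U, S.w n p)
  intro p hp
  rw [mem_filter] at hp
  exact hm p hp.1 hp.2

lemma measurable_E {m : MeasurableSpace Ω} (a : ℕ)
    (hm : ∀ n, ∀ p ∈ S.T n, a ≤ p → MeasurableSet[m] {ω | p ∈ Q ω}) (c : ℝ) :
    MeasurableSet[m] (S.E Q c) := by
  rw [E_eq a c]
  have h1 : {ω | ∀ k : ℕ, ∃ᶠ n : ℕ in atTop, (c - 1 / ((k : ℝ) + 1)) * n ≤ S.Xa Q a n ω} =
      ⋂ k : ℕ, ⋂ N : ℕ, ⋃ n : ℕ, ⋃ (_ : N ≤ n),
        {ω | (c - 1 / ((k : ℝ) + 1)) * n ≤ S.Xa Q a n ω} := by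
    ext ω
    simp only [Set.mem_iInter, Set.mem_iUnion, Set.mem_ofPred_eq, frequently_atTop, exists_prop]
  rw [h1]
  refine MeasurableSet.iInter fun k => MeasurableSet.iInter fun N =>
    MeasurableSet.iUnion fun n => MeasurableSet.iUnion fun _ => ?_
  exact measurable_Xa a n (hm n) _

variable [MeasurableSpace Ω] {P : Measure Ω}

/-- the zero-one law -/
lemma zero_one (h : Fair P Q) (hT : ∀ n, ∀ p ∈ S.T n, p.Prime) (c : ℝ) :
    P (S.E Q c) = 0 ∨ P (S.E Q c) = 1 := by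
  have hinf := Nat.infinite_setOfPred_prime
  let g : ℕ → Nat.Primes := fun j => ⟨Nat.nth Nat.Prime j, Nat.prime_nth_prime j⟩
  have hg : Function.Injective g := by
    intro i j hij
    have : Nat.nth Nat.Prime i = Nat.nth Nat.Prime j :=
      congrArg (fun r : Nat.Primes => (r : ℕ)) hij
    exact Nat.nth_injective hinf this
  have hind := ((iIndepSet_iff_iIndep _ _).1 h.indep).precomp hg
  refine measure_zero_or_one_of_measurableSet_limsup_atTop (ι := ℕ) ?_ hind ?_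
  · intro j
    apply MeasurableSpace.generateFrom_le
    rintro t ht
    rw [Set.mem_singleton_iff] at ht
    rw [ht]
    exact h.meas _
  · rw [limsup_eq_iInf_iSup_of_nat, MeasurableSpace.measurableSet_iInf]
    intro K
    refine measurable_E (Nat.nth Nat.Prime K) ?_ c
    intro n p hp hKp
    have hpp := hT n p hp
    have hj : Nat.nth Nat.Prime (Nat.count Nat.Prime p) = p := Nat.nth_count hpp
    have hKj : K ≤ Nat.count Nat.Prime p := by
      rw [← hj] at hKp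
      exact (Nat.nth_le_nth hinf).1 hKp
    have hle : ((fun i : Nat.Primes => MeasurableSpace.generateFrom {{ω | (i : ℕ) ∈ Q ω}}) ∘ g)
        (Nat.count Nat.Prime p) ≤ ⨆ i, ⨆ (_ : i ≥ K),
        ((fun i : Nat.Primes => MeasurableSpace.generateFrom {{ω | (i : ℕ) ∈ Q ω}}) ∘ g) i :=
      le_iSup₂_of_le (Nat.count Nat.Prime p) hKj le_rfl
    refine hle _ ?_
    have : {ω | p ∈ Q ω} = {ω | ((g (Nat.count Nat.Prime p) : Nat.Primes) : ℕ) ∈ Q ω} := by
      have e : ((g (Nat.count Nat.Prime p) : Nat.Primes) : ℕ) = p := hj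
      rw [e]
    rw [this]
    exact MeasurableSpace.measurableSet_generateFrom rfl

lemma prob_X (h : Fair P Q) (hT : ∀ n, ∀ p ∈ S.T n, p.Prime) (c : ℝ) (n : ℕ) :
    P {ω | c * n ≤ S.X Q n ω} = ENNReal.ofReal (S.P c n) :=
  h.prob_eq (hT n) (fun U => c * n ≤ ∑ p ∈ U, S.w n p)

/-- divergence implies infinitely many large values almost surely -/
lemma ae_of_not_summable (h : Fair P Q) (hT : ∀ n, ∀ p ∈ S.T n, p.Prime) {c : ℝ}
    (hc : ¬ Summable (S.P c)) {η : ℝ} (hη : 0 < η) : ∀ᵐ ω ∂P, ω ∈ S.E Q (c - η) := by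
  have := h.isProb
  obtain ⟨c0, hc0, hw⟩ := bc2 (c := c) hη hc
  -- the decreasing events
  let A : ℕ → Set Ω := fun N => {ω | ∃ n, N ≤ n ∧ (c - η) * n ≤ S.X Q n ω}
  have hmX : ∀ n, MeasurableSet {ω | (c - η) * n ≤ S.X Q n ω} := fun n =>
    measurable_kept (fun p hp => h.meas' (hT n p hp)) (fun U => (c - η) * n ≤ ∑ p ∈ U, S.w n p)
  have hAm : ∀ N, MeasurableSet (A N) := by
    intro N
    have : A N = ⋃ n : ℕ, ⋃ (_ : N ≤ n), {ω | (c - η) * n ≤ S.X Q n ω} := by
      ext ω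
      simp only [A, Set.mem_iUnion, Set.mem_ofPred_eq, exists_prop]
    rw [this]
    exact MeasurableSet.iUnion fun n => MeasurableSet.iUnion fun _ => hmX n
  have hA : ∀ N, ENNReal.ofReal c0 ≤ P (A N) := by
    intro N
    obtain ⟨N', hN'⟩ := hw N
    refine (ENNReal.ofReal_le_ofReal hN').trans ?_
    rw [← h.prob_eq (T := (Ico N N').biUnion S.T)
      (by
        intro p hp
        obtain ⟨n, -, hn⟩ := mem_biUnion.1 hp
        exact hT n p hn)]
    apply measure_mono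
    rintro ω ⟨n, hn, hx⟩
    refine ⟨n, (mem_Ico.1 hn).1, ?_⟩
    rw [kept_inter (subset_biUnion_of_mem S.T hn)] at hx
    exact hx
  have hanti : Antitone A := by
    intro N N' hNN' ω hω
    obtain ⟨n, hn, hx⟩ := hω
    exact ⟨n, hNN'.trans hn, hx⟩
  have hlim := tendsto_measure_iInter_atTop (μ := P) (s := A) (fun N => (hAm N).nullMeasurableSet)
    hanti ⟨0, measure_ne_top _ _⟩
  have hge : ENNReal.ofReal c0 ≤ P (⋂ N, A N) := ge_of_tendsto' hlim fun N => hA N
  have hsub : (⋂ N, A N) ⊆ S.E Q (c - η) := by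
    intro ω hω k
    rw [frequently_atTop]
    intro N
    obtain ⟨n, hn, hx⟩ := Set.mem_iInter.1 hω N
    refine ⟨n, hn, le_trans ?_ hx⟩
    apply mul_le_mul_of_nonneg_right _ (Nat.cast_nonneg n)
    have : (0 : ℝ) ≤ 1 / ((k : ℝ) + 1) := by positivity
    linarith
  have hE1 : P (S.E Q (c - η)) = 1 := by
    rcases zero_one h hT (c - η) with h0 | h1
    · have := hge.trans (measure_mono hsub)
      rw [h0] at this
      exact absurd this (not_le.2 (ENNReal.ofReal_pos.2 hc0))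
    · exact h1
  have hmE : MeasurableSet (S.E Q (c - η)) :=
    measurable_E 0 (fun n p hp _ => h.meas' (hT n p hp)) _
  rwa [← prob_compl_eq_zero_iff hmE] at hE1

/-- convergence implies that large values stop -/
lemma ae_of_summable (h : Fair P Q) (hT : ∀ n, ∀ p ∈ S.T n, p.Prime) {c : ℝ}
    (hc : Summable (S.P c)) : ∀ᵐ ω ∂P, ∀ᶠ n : ℕ in atTop, S.X Q n ω < c * n := by
  have h1 : ∑' n, P {ω | c * n ≤ S.X Q n ω} ≠ ⊤ := by
    simp_rw [prob_X h hT]
    exact hc.tsum_ofReal_ne_top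
  filter_upwards [ae_eventually_notMem h1] with ω hω
  filter_upwards [hω] with n hn
  exact not_le.1 hn

/-- the almost sure value of the upper limit -/
noncomputable def L (S : Sys) : ℝ := sSup {c : ℝ | ¬ Summable (S.P c)}

lemma zero_mem : (0 : ℝ) ∈ {c : ℝ | ¬ Summable (S.P c)} := by
  have h1 : S.P 0 = fun _ => (1 : ℝ) := by
    funext n
    unfold P
    rw [← cp_true (S.T n)]
    apply cp_congr
    intro U _
    simp only [zero_mul, iff_true]
    exact sum_nonneg fun p _ => S.nn n p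
  rw [Set.mem_ofPred_eq, h1]
  intro hs
  have := hs.tendsto_atTop_zero
  rw [tendsto_const_nhds_iff] at this
  exact one_ne_zero this

lemma bdd : BddAbove {c : ℝ | ¬ Summable (S.P c)} := by
  refine ⟨1, fun c hc => ?_⟩
  by_contra hcon
  push Not at hcon
  apply hc
  apply summable_of_ne_finset_zero (s := {0})
  intro n hn
  have hn0 : (0 : ℝ) < n := by
    rw [mem_singleton] at hn
    exact_mod_cast Nat.pos_of_ne_zero hn
  unfold P
  classical
  rw [cp_eq]
  have : (S.T n).powerset.filter (fun U => c * n ≤ ∑ p ∈ U, S.w n p) = ∅ := by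
    apply filter_eq_empty_iff.2
    intro U hU
    rw [mem_powerset] at hU
    rw [not_le]
    calc ∑ p ∈ U, S.w n p ≤ ∑ p ∈ S.T n, S.w n p :=
          sum_le_sum_of_subset_of_nonneg hU fun p _ _ => S.nn n p
      _ ≤ n := S.tot n
      _ < c * n := by nlinarith
  rw [this]
  simp

lemma P_anti {c c' : ℝ} (h : c ≤ c') (n : ℕ) : S.P c' n ≤ S.P c n := by
  apply cp_mono
  intro U _ h2
  refine le_trans ?_ h2
  exact mul_le_mul_of_nonneg_right h (Nat.cast_nonneg n)

lemma summable_of_L_lt {c : ℝ} (h : S.L < c) : Summable (S.P c) := by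
  by_contra hcon
  exact absurd (le_csSup bdd hcon) (not_le.2 h)

lemma not_summable_of_lt_L {c : ℝ} (h : c < S.L) : ¬ Summable (S.P c) := by
  intro hs
  obtain ⟨c', hc', hlt⟩ := exists_lt_of_lt_csSup ⟨0, zero_mem⟩ h
  exact hc' (Summable.of_nonneg_of_le (fun n => P_nonneg n) (fun n => P_anti hlt.le n) hs)

lemma L_nonneg : 0 ≤ S.L := le_csSup bdd zero_mem

omit [MeasurableSpace Ω] in
lemma bdd_X (ω : Ω) : ∀ n : ℕ, S.X Q n ω / n ∈ Set.Icc (0 : ℝ) 1 := by
  intro n
  refine ⟨div_nonneg (X_nonneg n ω) (Nat.cast_nonneg n), ?_⟩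
  apply div_le_one_of_le₀ (X_le n ω) (Nat.cast_nonneg n)

/-- The almost sure upper limit. -/
theorem limsup_eq (h : Fair P Q) (hT : ∀ n, ∀ p ∈ S.T n, p.Prime) :
    ∀ᵐ ω ∂P, limsup (fun n : ℕ => S.X Q n ω / n) atTop = S.L := by
  have h1 : ∀ᵐ ω ∂P, ∀ j : ℕ, ∀ᶠ n : ℕ in atTop,
      S.X Q n ω < (S.L + 1 / ((j : ℝ) + 1)) * n := by
    rw [ae_all_iff]
    intro j
    apply ae_of_summable h hT
    apply summable_of_L_lt
    have : (0 : ℝ) < 1 / ((j : ℝ) + 1) := by positivity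
    linarith
  have h2 : ∀ᵐ ω ∂P, ∀ j : ℕ, ω ∈ S.E Q (S.L - 1 / ((j : ℝ) + 1) - 1 / ((j : ℝ) + 1)) := by
    rw [ae_all_iff]
    intro j
    have hj : (0 : ℝ) < 1 / ((j : ℝ) + 1) := by positivity
    exact ae_of_not_summable h hT (not_summable_of_lt_L (by linarith)) hj
  filter_upwards [h1, h2] with ω hω1 hω2
  have hbd1 : IsBoundedUnder (· ≤ ·) atTop fun n : ℕ => S.X Q n ω / n :=
    isBoundedUnder_of ⟨1, fun n => (bdd_X (S := S) (Q := Q) ω n).2⟩
  have hbd2 : IsBoundedUnder (· ≥ ·) atTop fun n : ℕ => S.X Q n ω / n :=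
    isBoundedUnder_of ⟨0, fun n => (bdd_X (S := S) (Q := Q) ω n).1⟩
  have htend : Tendsto (fun j : ℕ => 1 / ((j : ℝ) + 1)) atTop (𝓝 0) :=
    tendsto_one_div_add_atTop_nhds_zero_nat
  apply le_antisymm
  · have h3 : ∀ j : ℕ, limsup (fun n : ℕ => S.X Q n ω / n) atTop ≤ S.L + 1 / ((j : ℝ) + 1) := by
      intro j
      apply limsup_le_of_le hbd2.isCoboundedUnder_le
      filter_upwards [hω1 j, eventually_gt_atTop 0] with n hn hn0
      have hn0' : (0 : ℝ) < n := Nat.cast_pos.2 hn0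
      rw [div_le_iff₀ hn0']
      exact hn.le
    have h4 : Tendsto (fun j : ℕ => S.L + 1 / ((j : ℝ) + 1)) atTop (𝓝 (S.L + 0)) :=
      tendsto_const_nhds.add htend
    rw [add_zero] at h4
    exact ge_of_tendsto' h4 h3
  · have h3 : ∀ j : ℕ, S.L - 1 / ((j : ℝ) + 1) - 1 / ((j : ℝ) + 1) - 1 / ((j : ℝ) + 1) ≤
        limsup (fun n : ℕ => S.X Q n ω / n) atTop := by
      intro j
      have h5 := hω2 j j
      apply le_limsup_of_frequently_le _ hbd1
      refine (h5.and_eventually (eventually_gt_atTop 0)).mono ?_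
      rintro n ⟨hn, hn0⟩
      have hn0' : (0 : ℝ) < n := Nat.cast_pos.2 hn0
      rw [le_div_iff₀ hn0']
      exact hn
    have h4 : Tendsto (fun j : ℕ => S.L - 1 / ((j : ℝ) + 1) - 1 / ((j : ℝ) + 1) -
        1 / ((j : ℝ) + 1)) atTop (𝓝 (S.L - 0 - 0 - 0)) :=
      ((tendsto_const_nhds.sub htend).sub htend).sub htend
    simp only [sub_zero] at h4
    exact le_of_tendsto' h4 h3

end Sys

end Pool.Agent.Helper42.RP
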