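import Mathlib
import Pool.Agent.Helper42.RP.Tail
import Pool.Agent.Helper42.RP.Arith
import Pool.Agent.Helper42.RP.Kappa

/-! Criteria for the value of the constant of the Mersenne system. -/

namespace Pool.Agent.Helper42.RP

open Finset MeasureTheory ProbabilityTheory Filter Topology

/-- `log (2^n-1)` -/
noncomputable def WW (n : ℕ) : ℝ := ∑ p ∈ MS.T n, MS.w n p

lemma WW_eq (n : ℕ) : WW n = Real.log ((2 ^ n - 1 : ℕ) : ℝ) := MS_tot n

lemma WW_le (n : ℕ) : WW n ≤ n * Real.log 2 := by rw [WW_eq]; exact log_mers_le n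

lemma WW_ge {n : ℕ} (hn : 1 ≤ n) : ((n : ℝ) - 1) * Real.log 2 ≤ WW n := by
  rw [WW_eq]
  have h1 : 2 ^ (n - 1) ≤ 2 ^ n - 1 := by
    obtain ⟨m, rfl⟩ : ∃ m, n = m + 1 := ⟨n - 1, by omega⟩
    rw [Nat.add_sub_cancel, pow_succ]
    have : 1 ≤ 2 ^ m := Nat.one_le_two_pow
    omega
  have h2 : ((2 ^ (n - 1) : ℕ) : ℝ) ≤ ((2 ^ n - 1 : ℕ) : ℝ) := by exact_mod_cast h1
  have h3 := Real.log_le_log (by positivity) h2
  rw [Nat.cast_pow, Real.log_pow, Nat.cast_sub hn] at h3
  push_cast at h3 ⊢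
  exact h3

lemma WW_pos {n : ℕ} (hn : 2 ≤ n) : 0 < WW n := by
  have h1 := WW_ge (by omega : 1 ≤ n)
  have hl2 : 0 < Real.log 2 := Real.log_pos (by norm_num)
  have h2 : (1 : ℝ) ≤ (n : ℝ) - 1 := by
    have : (2 : ℝ) ≤ n := by exact_mod_cast hn
    linarith
  nlinarith

lemma WW_nonneg (n : ℕ) : 0 ≤ WW n := sum_nonneg fun p _ => MS.nn n p

/-- probability that the kept part is at least the power `α` of the whole -/
noncomputable def pr (α : ℝ) (n : ℕ) : ℝ :=
  cp (MS.T n) fun U => α * WW n ≤ ∑ p ∈ U, MS.w n p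

lemma L_ge {α : ℝ} (hα : 0 < α) {a : ℕ → ℝ} (ha : ∀ n, 0 ≤ a n) (hna : ¬ Summable a)
    (h : ∀ n, a n ≤ pr α n) : α * Real.log 2 ≤ MS.L := by
  have hl2 : 0 < Real.log 2 := Real.log_pos (by norm_num)
  by_contra hcon
  push Not at hcon
  obtain ⟨c, hc1, hc2⟩ := exists_between hcon
  have hc0 : 0 ≤ c := Sys.L_nonneg.trans hc1.le
  have hs := Sys.summable_of_L_lt hc1
  apply hna
  -- for large `n`, `c n ≤ α (n-1) log 2`
  have hev : ∀ᶠ n : ℕ in atTop, a n ≤ MS.P c n := by
    have h1 : Tendsto (fun n : ℕ => (α * Real.log 2 - c) * (n : ℝ)) atTop atTop :=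
      tendsto_natCast_atTop_atTop.const_mul_atTop (by linarith)
    filter_upwards [h1.eventually_ge_atTop (α * Real.log 2), eventually_ge_atTop 1] with n h2 h3
    refine (h n).trans (cp_mono _ ?_)
    intro U _ hU
    refine le_trans ?_ hU
    have h4 := mul_le_mul_of_nonneg_left (WW_ge h3) hα.le
    nlinarith
  obtain ⟨n0, hn0⟩ := eventually_atTop.1 hev
  rw [← summable_nat_add_iff n0] at hs ⊢
  exact Summable.of_nonneg_of_le (fun n => ha _) (fun n => hn0 _ (by omega)) hs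

lemma L_le {α : ℝ} (hα : 0 ≤ α) (hs : Summable (pr α)) : MS.L ≤ α * Real.log 2 := by
  by_contra hcon
  push Not at hcon
  apply Sys.not_summable_of_lt_L hcon
  refine Summable.of_nonneg_of_le (fun n => Sys.P_nonneg n) (fun n => ?_) hs
  apply cp_mono
  intro U _ hU
  refine le_trans ?_ hU
  rw [mul_assoc, mul_comm (Real.log 2)]
  exact mul_le_mul_of_nonneg_left (WW_le n) hα

lemma L_le_log : MS.L ≤ Real.log 2 := by
  by_contra hcon
  push Not at hcon
  obtain ⟨c, hc1, hc2⟩ := exists_between hcon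
  apply Sys.not_summable_of_lt_L hc2
  apply summable_of_ne_finset_zero (s := {0})
  intro n hn
  have hn0 : (0 : ℝ) < n := by
    rw [mem_singleton] at hn
    exact_mod_cast Nat.pos_of_ne_zero hn
  unfold Sys.P
  classical
  rw [cp_eq]
  have : (MS.T n).powerset.filter (fun U => c * n ≤ ∑ p ∈ U, MS.w n p) = ∅ := by
    apply filter_eq_empty_iff.2
    intro U hU
    rw [mem_powerset] at hU
    rw [not_le]
    calc ∑ p ∈ U, MS.w n p ≤ WW n :=
          sum_le_sum_of_subset_of_nonneg hU fun p _ _ => MS.nn n p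
      _ ≤ n * Real.log 2 := WW_le n
      _ < c * n := by nlinarith
  rw [this]
  simp

lemma L_ge_half : 1 / 2 * Real.log 2 ≤ MS.L := by
  refine L_ge (by norm_num) (a := fun _ => 1 / 2) (fun _ => by norm_num) ?_ (fun n => cp_half _ _)
  intro hs
  have := hs.tendsto_atTop_zero
  rw [tendsto_const_nhds_iff] at this
  norm_num at this

/-- least number of primes carrying the proportion `t` -/
noncomputable def kk (t : ℝ) (n : ℕ) : ℕ := kp (MS.T n) (MS.w n) t

lemma L_ge_of_kk {t : ℝ} (ht : 0 < t) (ht1 : t ≤ 1)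
    (hs : ¬ Summable fun n => (1 / 2 : ℝ) ^ kk t n) : t * Real.log 2 ≤ MS.L :=
  L_ge ht (fun n => by positivity) hs fun n => kp_lower (MS.nn n) ht1

lemma L_ge_of_kk_half {t : ℝ} (ht : 0 < t) (ht1 : t ≤ 1)
    (hs : ¬ Summable fun n => (1 / 2 : ℝ) ^ kk t n) : (1 + t) / 2 * Real.log 2 ≤ MS.L := by
  refine L_ge (by positivity) (a := fun n => (1 / 2 : ℝ) ^ kk t n * (1 / 2))
    (fun n => by positivity) ?_ (fun n => kp_lower_half (MS.nn n) ht1)
  intro h
  apply hs
  have := h.mul_right 2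
  refine this.congr fun n => ?_
  ring

lemma summable_shift {f g : ℕ → ℝ} (hf : ∀ n, 0 ≤ f n) (hg : Summable g)
    (h : ∀ n, 2 ≤ n → f n ≤ 2 * g n) : Summable f := by
  have h1 := hg.mul_left 2
  rw [← summable_nat_add_iff 2] at h1 ⊢
  exact Summable.of_nonneg_of_le (fun n => hf _) (fun n => h _ (by omega)) h1

lemma L_lt_of_kk {t : ℝ} (ht : 0 < t) (ht1 : t < 1)
    (hs : Summable fun n => (1 / 2 : ℝ) ^ kk t n) : MS.L < Real.log 2 := by
  obtain ⟨δ, hδ, hδ1, h⟩ := kp_upper (ε := 1 - t) (by linarith) (by linarith)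
  have hl2 : 0 < Real.log 2 := Real.log_pos (by norm_num)
  have h1 : MS.L ≤ (1 - δ) * Real.log 2 := by
    apply L_le (by linarith)
    refine summable_shift (fun n => cp_nonneg _ _) hs fun n hn => ?_
    have := h (MS.T n) (MS.w n) (MS.nn n) (WW_pos hn)
    rw [sub_sub_cancel] at this
    exact this
  nlinarith

lemma L_le_of_kk_half {η : ℝ} (hη : 0 < η) (hη1 : η ≤ 1 / 2)
    (hs : Summable fun n => (1 / 2 : ℝ) ^ kk (η ^ 2 / 2) n) :
    MS.L ≤ (1 / 2 + η) * Real.log 2 := by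
  apply L_le (by positivity)
  refine summable_shift (fun n => cp_nonneg _ _) hs fun n hn => ?_
  exact kp_upper_half hη hη1 (MS.T n) (MS.w n) (MS.nn n) (WW_pos hn)

/-- the criterion for the full value -/
theorem crit_full : MS.L = Real.log 2 ↔
    ∀ t : ℝ, 0 < t → t < 1 → ¬ Summable fun n => (1 / 2 : ℝ) ^ kk t n := by
  have hl2 : 0 < Real.log 2 := Real.log_pos (by norm_num)
  constructor
  · intro h t ht ht1 hs
    exact (L_lt_of_kk ht ht1 hs).ne h
  · intro h
    apply le_antisymm L_le_log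
    by_contra hcon
    push Not at hcon
    have h0 : 0 ≤ MS.L := Sys.L_nonneg
    obtain ⟨c, hc1, hc2⟩ := exists_between hcon
    have hc0 : 0 < c := lt_of_le_of_lt h0 hc1
    have := L_ge_of_kk (t := c / Real.log 2) (by positivity)
      (by rw [div_le_one hl2]; exact hc2.le)
      (h _ (by positivity) (by rw [div_lt_one hl2]; exact hc2))
    rw [div_mul_cancel₀ _ hl2.ne'] at this
    linarith

/-- the criterion for a value above one half -/
theorem crit_half : 1 / 2 * Real.log 2 < MS.L ↔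
    ∃ t : ℝ, 0 < t ∧ t < 1 ∧ ¬ Summable fun n => (1 / 2 : ℝ) ^ kk t n := by
  have hl2 : 0 < Real.log 2 := Real.log_pos (by norm_num)
  constructor
  · intro h
    by_contra hcon
    push Not at hcon
    obtain ⟨c, hc1, hc2⟩ := exists_between h
    set η := min (1 / 2) (c / Real.log 2 - 1 / 2) with hη
    have hη0 : 0 < η := by
      apply lt_min (by norm_num)
      rw [sub_pos, lt_div_iff₀ hl2]
      exact hc1
    have hη1 : η ≤ 1 / 2 := min_le_left _ _
    have h1 := L_le_of_kk_half hη0 hη1 (hcon _ (by positivity) (by nlinarith))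
    have h2 : η ≤ c / Real.log 2 - 1 / 2 := min_le_right _ _
    have h3 : (1 / 2 + η) * Real.log 2 ≤ c := by
      have : 1 / 2 + η ≤ c / Real.log 2 := by linarith
      rwa [le_div_iff₀ hl2] at this
    linarith
  · rintro ⟨t, ht, ht1, hs⟩
    have := L_ge_of_kk_half ht ht1.le hs
    nlinarith

end Pool.Agent.Helper42.RP
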