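import Mathlib
import Pool.Agent.Helper42.RP.Crit

/-! From the system of weights to the numbers `M_Q(n)`, unitary divisors and lower limits. -/

namespace Pool.Agent.Helper42.RP

open Finset MeasureTheory ProbabilityTheory Filter Topology

/-! ### complement of the random set -/

section compl

variable {Ω : Type*} [MeasurableSpace Ω] {P : Measure Ω} {Q : Ω → Set ℕ}

lemma Fair.compl (h : Fair P Q) : Fair P (fun ω => (Q ω)ᶜ) := by
  have := h.isProb
  refine ⟨fun p => ?_, fun p => ?_, ?_⟩
  · exact (h.meas p).compl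
  · have h1 : {ω | (p : ℕ) ∈ (Q ω)ᶜ} = {ω | (p : ℕ) ∈ Q ω}ᶜ := rfl
    rw [h1, prob_compl_eq_one_sub (h.meas p), h.half p]
    simp
  · rw [iIndepSet_iff]
    intro S f hf
    refine (iIndepSet_iff _ _).1 h.indep S fun i hi => ?_
    have h2 : MeasurableSpace.generateFrom {{ω | (i : ℕ) ∈ (Q ω)ᶜ}} ≤
        MeasurableSpace.generateFrom {{ω | (i : ℕ) ∈ Q ω}} := by
      apply MeasurableSpace.generateFrom_le
      intro t ht
      rw [Set.mem_singleton_iff] at ht
      rw [ht]
      have h3 : MeasurableSet[MeasurableSpace.generateFrom {{ω | (i : ℕ) ∈ Q ω}}]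
        {ω | (i : ℕ) ∈ Q ω} := MeasurableSpace.measurableSet_generateFrom rfl
      exact h3.compl
    exact h2 _ (hf i hi)

end compl

section X

variable {Ω : Type*} {Q : Ω → Set ℕ}

lemma X_add_compl (n : ℕ) (ω : Ω) :
    MS.X Q n ω + MS.X (fun ω => (Q ω)ᶜ) n ω = WW n := by
  classical
  unfold Sys.X WW
  rw [← sum_union]
  · congr 1
    ext p
    rw [mem_union, mem_kept, mem_kept]
    simp only [Set.mem_compl_iff, not_not]
    tauto
  · rw [disjoint_left]
    intro p h1 h2
    rw [mem_kept] at h1 h2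
    exact h2.2 h1.2

end X

/-! ### lower limit of a difference -/

lemma liminf_sub_eq {a y : ℕ → ℝ} {A : ℝ} (ha : Tendsto a atTop (𝓝 A))
    (hy : ∀ n, y n ∈ Set.Icc (0 : ℝ) 1) :
    liminf (fun n => a n - y n) atTop = A - limsup y atTop := by
  have hyu : IsBoundedUnder (· ≤ ·) atTop y := isBoundedUnder_of ⟨1, fun n => (hy n).2⟩
  have hyl : IsBoundedUnder (· ≥ ·) atTop y := isBoundedUnder_of ⟨0, fun n => (hy n).1⟩
  have hau : ∀ ε : ℝ, 0 < ε → ∀ᶠ n in atTop, A - ε < a n ∧ a n < A + ε := by
    intro ε hε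
    have := ha.eventually (Ioo_mem_nhds (by linarith : A - ε < A) (by linarith : A < A + ε))
    exact this
  have hbl : IsBoundedUnder (· ≥ ·) atTop fun n => a n - y n := by
    refine ⟨A - 1 - 1, ?_⟩
    rw [eventually_map]
    filter_upwards [hau 1 one_pos] with n hn
    have := (hy n).2
    change A - 1 - 1 ≤ a n - y n
    linarith [hn.1]
  have hbu : IsBoundedUnder (· ≤ ·) atTop fun n => a n - y n := by
    refine ⟨A + 1, ?_⟩
    rw [eventually_map]
    filter_upwards [hau 1 one_pos] with n hn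
    have := (hy n).1
    change a n - y n ≤ A + 1
    linarith [hn.2]
  apply le_antisymm
  · apply le_of_forall_pos_le_add
    intro ε hε
    apply liminf_le_of_frequently_le _ hbl
    have h1 : ∃ᶠ n in atTop, limsup y atTop - ε / 2 < y n :=
      frequently_lt_of_lt_limsup hyl.isCoboundedUnder_le (by linarith)
    refine (h1.and_eventually (hau (ε / 2) (by positivity))).mono ?_
    rintro n ⟨h2, h3⟩
    linarith [h3.2]
  · apply le_of_forall_pos_le_add
    intro ε hε
    have h1 : ∀ᶠ n in atTop, y n < limsup y atTop + ε / 2 :=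
      eventually_lt_of_limsup_lt (by linarith) hyu
    have h2 : A - limsup y atTop - ε ≤ liminf (fun n => a n - y n) atTop := by
      apply le_liminf_of_le hbu.isCoboundedUnder_ge
      filter_upwards [h1, hau (ε / 2) (by positivity)] with n h3 h4
      linarith [h4.1]
    linarith

lemma WW_tendsto : Tendsto (fun n : ℕ => WW n / n) atTop (𝓝 (Real.log 2)) := by
  have hl2 : 0 < Real.log 2 := Real.log_pos (by norm_num)
  have h1 : Tendsto (fun n : ℕ => Real.log 2 - Real.log 2 / (n : ℝ)) atTop
      (𝓝 (Real.log 2 - 0)) :=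
    tendsto_const_nhds.sub (tendsto_const_div_atTop_nhds_zero_nat _)
  rw [sub_zero] at h1
  refine tendsto_of_tendsto_of_tendsto_of_le_of_le' h1 tendsto_const_nhds ?_ ?_
  · filter_upwards [eventually_ge_atTop 1] with n hn
    have hn0 : (0 : ℝ) < n := by exact_mod_cast hn
    rw [le_div_iff₀ hn0]
    have := WW_ge hn
    have e : (Real.log 2 - Real.log 2 / (n : ℝ)) * n = ((n : ℝ) - 1) * Real.log 2 := by
      field_simp
    rw [e]; exact this
  · filter_upwards [eventually_ge_atTop 1] with n hn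
    have hn0 : (0 : ℝ) < n := by exact_mod_cast hn
    rw [div_le_iff₀ hn0, mul_comm]
    exact WW_le n

section ae

variable {Ω : Type*} [MeasurableSpace Ω] {P : Measure Ω} {Q : Ω → Set ℕ}

theorem ae_limsup (h : Fair P Q) :
    ∀ᵐ ω ∂P, limsup (fun n : ℕ => MS.X Q n ω / n) atTop = MS.L :=
  Sys.limsup_eq h MS_prime

theorem ae_liminf (h : Fair P Q) :
    ∀ᵐ ω ∂P, liminf (fun n : ℕ => MS.X Q n ω / n) atTop = Real.log 2 - MS.L := by
  filter_upwards [Sys.limsup_eq (S := MS) h.compl MS_prime] with ω hω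
  rw [← hω, ← liminf_sub_eq WW_tendsto (fun n => Sys.bdd_X (S := MS) ω n)]
  congr 1
  funext n
  rw [← X_add_compl (Q := Q) n ω]
  ring

end ae

/-! ### unitary divisors -/

/-- unitary divisors -/
def unitaryDivisors (m : ℕ) : Finset ℕ := m.divisors.filter fun D => Nat.Coprime D (m / D)

/-- the divisor of `m` composed of the full powers of the primes of `U` -/
def ud (m : ℕ) (U : Finset ℕ) : ℕ := ∏ p ∈ U, p ^ m.factorization p

lemma ud_pos {m : ℕ} {U : Finset ℕ} (hU : U ⊆ m.primeFactors) : 0 < ud m U :=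
  prod_pos fun _ hp => pow_pos (Nat.prime_of_mem_primeFactors (hU hp)).pos _

lemma ud_full {m : ℕ} (hm : m ≠ 0) : ud m m.primeFactors = m := by
  conv_rhs => rw [← Nat.prod_factorization_pow_eq_self hm]
  rfl

lemma ud_mul {m : ℕ} (hm : m ≠ 0) {U : Finset ℕ} (hU : U ⊆ m.primeFactors) :
    ud m U * ud m (m.primeFactors \ U) = m := by
  have h1 : ud m (m.primeFactors \ U) * ud m U = ud m m.primeFactors := prod_sdiff hU
  rw [mul_comm, h1, ud_full hm]

lemma ud_coprime {m : ℕ} {U V : Finset ℕ} (hU : U ⊆ m.primeFactors) (hV : V ⊆ m.primeFactors)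
    (hd : Disjoint U V) : Nat.Coprime (ud m U) (ud m V) := by
  apply Nat.Coprime.prod_left
  intro p hp
  apply Nat.Coprime.prod_right
  intro q hq
  apply Nat.Coprime.pow
  rw [Nat.coprime_primes (Nat.prime_of_mem_primeFactors (hU hp))
    (Nat.prime_of_mem_primeFactors (hV hq))]
  rintro rfl
  exact disjoint_left.1 hd hp hq

lemma ud_primeFactors {m : ℕ} {U : Finset ℕ} (hU : U ⊆ m.primeFactors) :
    (ud m U).primeFactors = U := by
  ext p
  rw [Nat.mem_primeFactors]
  constructor
  · rintro ⟨hp, hdvd, -⟩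
    unfold ud at hdvd
    obtain ⟨q, hq, hpq⟩ := (hp.prime.dvd_finsetProd_iff _).1 hdvd
    have := (Nat.prime_dvd_prime_iff_eq hp (Nat.prime_of_mem_primeFactors (hU hq))).1
      (hp.dvd_of_dvd_pow hpq)
    rw [this]; exact hq
  · intro hp
    have hpp := Nat.prime_of_mem_primeFactors (hU hp)
    refine ⟨hpp, ?_, (ud_pos hU).ne'⟩
    have h1 : p ^ m.factorization p ∣ ud m U := dvd_prod_of_mem _ hp
    refine dvd_trans (dvd_pow_self p ?_) h1
    have := hU hp
    rw [← Nat.support_factorization, Finsupp.mem_support_iff] at this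
    exact this

lemma ud_log {m : ℕ} {U : Finset ℕ} (hU : U ⊆ m.primeFactors) :
    Real.log (ud m U : ℝ) = ∑ p ∈ U, (m.factorization p : ℝ) * Real.log p := by
  unfold ud
  rw [Nat.cast_prod, Real.log_prod]
  · apply sum_congr rfl
    intro p _
    rw [Nat.cast_pow, Real.log_pow]
  · intro p hp
    have := (Nat.prime_of_mem_primeFactors (hU hp)).pos
    positivity

lemma ud_unitary {m : ℕ} (hm : m ≠ 0) {D : ℕ} (hD : D ∈ unitaryDivisors m) :
    ud m D.primeFactors = D := by
  unfold unitaryDivisors at hD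
  rw [mem_filter, Nat.mem_divisors] at hD
  obtain ⟨⟨hdvd, -⟩, hc⟩ := hD
  have hD0 : D ≠ 0 := fun h => hm (by rw [h] at hdvd; exact Nat.eq_zero_of_zero_dvd hdvd)
  conv_rhs => rw [← Nat.prod_factorization_pow_eq_self hD0]
  unfold ud Finsupp.prod
  rw [Nat.support_factorization]
  apply prod_congr rfl
  intro p hp
  congr 1
  have hpp := Nat.prime_of_mem_primeFactors hp
  have hpD := Nat.dvd_of_mem_primeFactors hp
  obtain ⟨E, rfl⟩ := hdvd
  have hE0 : E ≠ 0 := fun h => hm (by rw [h, mul_zero])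
  rw [Nat.mul_div_cancel_left E (Nat.pos_of_ne_zero hD0)] at hc
  rw [Nat.factorization_mul hD0 hE0]
  have : E.factorization p = 0 := by
    apply Nat.factorization_eq_zero_of_not_dvd
    intro h
    exact Nat.not_coprime_of_dvd_of_dvd hpp.one_lt hpD h hc
  simp [this]

/-- counting unitary divisors is counting sets of primes -/
lemma card_unitary {m : ℕ} (hm : m ≠ 0) (x : ℝ) :
    ((unitaryDivisors m).filter fun D : ℕ => x ≤ Real.log (D : ℝ)).card =
      (m.primeFactors.powerset.filter fun U =>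
        x ≤ ∑ p ∈ U, (m.factorization p : ℝ) * Real.log p).card := by
  symm
  apply card_nbij' (fun U => ud m U) (fun D => D.primeFactors)
  · intro U hU
    simp only [coe_filter, mem_powerset, Set.mem_ofPred_eq] at hU ⊢
    refine ⟨?_, by rw [ud_log hU.1]; exact hU.2⟩
    unfold unitaryDivisors
    rw [mem_filter, Nat.mem_divisors]
    have h1 := ud_mul hm hU.1
    refine ⟨⟨⟨_, h1.symm⟩, hm⟩, ?_⟩
    have h2 : m / ud m U = ud m (m.primeFactors \ U) :=
      Nat.div_eq_of_eq_mul_right (ud_pos hU.1) h1.symm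
    rw [h2]
    exact ud_coprime hU.1 sdiff_subset disjoint_sdiff
  · intro D hD
    simp only [coe_filter, mem_powerset, Set.mem_ofPred_eq] at hD ⊢
    have h1 := ud_unitary hm hD.1
    have h2 : D.primeFactors ⊆ m.primeFactors := by
      have := hD.1
      unfold unitaryDivisors at this
      rw [mem_filter, Nat.mem_divisors] at this
      exact Nat.primeFactors_mono this.1.1 hm
    refine ⟨h2, ?_⟩
    rw [← ud_log h2, h1]
    exact hD.2
  · intro U hU
    simp only [coe_filter, mem_powerset, Set.mem_ofPred_eq] at hU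
    exact ud_primeFactors hU.1
  · intro D hD
    simp only [coe_filter, Set.mem_ofPred_eq] at hD
    exact ud_unitary hm hD.1

lemma card_unitary_all {m : ℕ} (hm : m ≠ 0) :
    (unitaryDivisors m).card = 2 ^ m.primeFactors.card := by
  have h1 := card_unitary hm (Real.log (0 : ℝ))
  rw [filter_true_of_mem, filter_true_of_mem, card_powerset] at h1
  · exact h1
  · intro U _
    rw [Real.log_zero]
    exact sum_nonneg fun p _ => term_nonneg m p
  · intro D _
    rw [Real.log_zero]
    exact Real.log_natCast_nonneg D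

/-- proportion of the unitary divisors `D` of `2^n-1` with `log D ≥ c n` -/
noncomputable def dens (c : ℝ) (n : ℕ) : ℝ :=
  (((unitaryDivisors (2 ^ n - 1)).filter fun D : ℕ => c * n ≤ Real.log (D : ℝ)).card : ℝ) /
    ((unitaryDivisors (2 ^ n - 1)).card : ℝ)

lemma mers_ne {n : ℕ} (hn : 1 ≤ n) : 2 ^ n - 1 ≠ 0 := by
  have : 1 < 2 ^ n := Nat.one_lt_two_pow (by omega)
  omega

lemma dens_eq {n : ℕ} (hn : 1 ≤ n) (c : ℝ) : dens c n = MS.P c n := by
  unfold dens Sys.P
  rw [card_unitary (mers_ne hn), card_unitary_all (mers_ne hn), cp_eq]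
  push_cast
  rfl

lemma summable_dens (c : ℝ) : Summable (dens c) ↔ Summable (MS.P c) := by
  rw [← summable_nat_add_iff 1, ← summable_nat_add_iff (f := MS.P c) 1]
  apply summable_congr
  intro n
  exact dens_eq (by omega) c

lemma L_eq : MS.L = sSup {c : ℝ | ¬ Summable (dens c)} := by
  unfold Sys.L
  congr 1
  ext c
  rw [Set.mem_ofPred_eq, Set.mem_ofPred_eq, summable_dens]

end Pool.Agent.Helper42.RP
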