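import Mathlib
import Pool.Agent.Helper42.RP.Bridge

/-! The numbers `M_Q(n)`. -/

namespace Pool.Agent.Helper42.RP

open Finset MeasureTheory ProbabilityTheory Filter Topology

/-- `M_Q(n) = (2^n-1) ∏_{p ∈ Q} |2^n-1|_p`, the product being over the primes in `Q` -/
noncomputable def MQ (Q : Set ℕ) (n : ℕ) : ℝ :=
  ((2 : ℝ) ^ n - 1) * ∏ᶠ p ∈ {p : ℕ | p.Prime ∧ p ∈ Q}, (padicNorm p ((2 : ℚ) ^ n - 1) : ℝ)

/-- `κ_t(n)`: the least number of primes dividing `2^n-1` such that the product of the powers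
of these primes in `2^n-1` is at least `(2^n-1)^t` -/
noncomputable def kappa (t : ℝ) (n : ℕ) : ℕ :=
  sInf {k | ∃ S ⊆ (2 ^ n - 1).primeFactors, S.card = k ∧
    ((2 ^ n - 1 : ℕ) : ℝ) ^ t ≤ ((∏ p ∈ S, p ^ (2 ^ n - 1).factorization p : ℕ) : ℝ)}

lemma kappa_eq {t : ℝ} (ht : 0 < t) (n : ℕ) : kappa t n = kk t n := by
  unfold kappa kk kp
  congr 1
  ext k
  rw [Set.mem_ofPred_eq, Set.mem_ofPred_eq]
  apply exists_congr
  intro S
  apply and_congr_right
  intro hS
  apply and_congr_right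
  intro _
  have hprod : ((∏ p ∈ S, p ^ (2 ^ n - 1).factorization p : ℕ) : ℝ) = ud (2 ^ n - 1) S := rfl
  rw [hprod]
  have hlog := ud_log hS
  have hpos : (0 : ℝ) < ud (2 ^ n - 1) S := Nat.cast_pos.2 (ud_pos hS)
  have hW := WW_eq n
  unfold WW at hW
  rw [hW]
  have hlog' : ∑ p ∈ S, MS.w n p = Real.log (ud (2 ^ n - 1) S : ℝ) := hlog.symm
  rw [hlog']
  rcases Nat.eq_zero_or_pos (2 ^ n - 1) with h0 | h0
  · have h1 : S = ∅ := by
      rw [h0, Nat.primeFactors_zero, subset_empty] at hS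
      exact hS
    subst h1
    rw [h0]
    simp [ud, Real.zero_rpow ht.ne']
  · have hm : (0 : ℝ) < ((2 ^ n - 1 : ℕ) : ℝ) := Nat.cast_pos.2 h0
    rw [← Real.log_rpow hm, Real.log_le_log_iff (Real.rpow_pos_of_pos hm t) hpos]

lemma two_pow_sub_one_cast (n : ℕ) : (2 : ℝ) ^ n - 1 = ((2 ^ n - 1 : ℕ) : ℝ) := by
  have : 1 ≤ 2 ^ n := Nat.one_le_two_pow
  push_cast [Nat.cast_sub this]
  ring

lemma two_pow_sub_one_castQ (n : ℕ) : (2 : ℚ) ^ n - 1 = ((2 ^ n - 1 : ℕ) : ℚ) := by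
  have : 1 ≤ 2 ^ n := Nat.one_le_two_pow
  push_cast [Nat.cast_sub this]
  ring

variable {Ω : Type*} {Q : Ω → Set ℕ}

/-- the logarithm of `M_Q(n)` is the weight of the primes outside `Q` -/
lemma log_MQ {n : ℕ} (hn : 1 ≤ n) (ω : Ω) : Real.log (MQ (Q ω) n) = MS.X Q n ω := by
  classical
  set m := 2 ^ n - 1 with hm
  have hm0 : m ≠ 0 := mers_ne hn
  have hfin : ∏ᶠ p ∈ {p : ℕ | p.Prime ∧ p ∈ Q ω}, (padicNorm p ((2 : ℚ) ^ n - 1) : ℝ) =
      ∏ p ∈ m.primeFactors.filter (fun p => p ∈ Q ω), (padicNorm p ((2 : ℚ) ^ n - 1) : ℝ) := by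
    apply finprod_mem_eq_prod_of_inter_mulSupport_eq
    ext p
    simp only [Set.mem_inter_iff, Set.mem_ofPred_eq, Function.mem_mulSupport, coe_filter]
    constructor
    · rintro ⟨⟨hp, hpQ⟩, hne⟩
      refine ⟨⟨?_, hpQ⟩, hne⟩
      rw [Nat.mem_primeFactors]
      refine ⟨hp, ?_, hm0⟩
      by_contra hdvd
      apply hne
      have := Fact.mk hp
      rw [two_pow_sub_one_castQ, ← hm, (padicNorm.nat_eq_one_iff m).2 hdvd]
      simp
    · rintro ⟨⟨hp, hpQ⟩, hne⟩
      exact ⟨⟨Nat.prime_of_mem_primeFactors hp, hpQ⟩, hne⟩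
  have hnorm : ∀ p ∈ m.primeFactors, (padicNorm p ((2 : ℚ) ^ n - 1) : ℝ) =
      ((p : ℝ) ^ m.factorization p)⁻¹ := by
    intro p hp
    have hpp := Nat.prime_of_mem_primeFactors hp
    have := Fact.mk hpp
    rw [two_pow_sub_one_castQ, ← hm, padicNorm.eq_zpow_of_nonzero (by exact_mod_cast hm0),
      padicValRat.of_nat, Nat.factorization_def _ hpp, Rat.cast_zpow, Rat.cast_natCast,
      zpow_neg, zpow_natCast]
  unfold MQ
  rw [hfin, two_pow_sub_one_cast, ← hm, Real.log_mul (by exact_mod_cast hm0)]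
  · rw [Real.log_prod]
    · have h1 : ∑ p ∈ m.primeFactors.filter (fun p => p ∈ Q ω),
          Real.log (padicNorm p ((2 : ℚ) ^ n - 1) : ℝ) =
          -∑ p ∈ m.primeFactors.filter (fun p => p ∈ Q ω), MS.w n p := by
        rw [← sum_neg_distrib]
        apply sum_congr rfl
        intro p hp
        rw [hnorm p (mem_filter.1 hp).1, Real.log_inv, Real.log_pow]
        rfl
      rw [h1, log_eq_sum]
      have h2 := sum_filter_add_sum_filter_not m.primeFactors (fun p => p ∈ Q ω)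
        (fun p => MS.w n p)
      have h3 : MS.X Q n ω = ∑ p ∈ m.primeFactors.filter (fun p => ¬ p ∈ Q ω), MS.w n p := by
        unfold Sys.X
        apply sum_congr _ fun _ _ => rfl
        ext p
        rw [mem_kept, mem_filter]
        rfl
      rw [h3, ← sub_eq_add_neg, sub_eq_iff_eq_add, add_comm]
      exact h2.symm
    · intro p hp
      rw [hnorm p (mem_filter.1 hp).1]
      have := (Nat.prime_of_mem_primeFactors (mem_filter.1 hp).1).pos
      positivity
  · rw [prod_ne_zero_iff]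
    intro p hp
    rw [hnorm p (mem_filter.1 hp).1]
    have := (Nat.prime_of_mem_primeFactors (mem_filter.1 hp).1).pos
    positivity

lemma logMQ_div_eventually (ω : Ω) :
    (fun n : ℕ => Real.log (MQ (Q ω) n) / n) =ᶠ[atTop] fun n : ℕ => MS.X Q n ω / n := by
  filter_upwards [eventually_ge_atTop 1] with n hn
  rw [log_MQ hn]

variable [MeasurableSpace Ω] {P : Measure Ω}

/-- the almost sure values of the upper and the lower limit -/
theorem ae_MQ (h : Fair P Q) : ∀ᵐ ω ∂P,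
    limsup (fun n : ℕ => Real.log (MQ (Q ω) n) / n) atTop = MS.L ∧
    liminf (fun n : ℕ => Real.log (MQ (Q ω) n) / n) atTop = Real.log 2 - MS.L := by
  filter_upwards [ae_limsup h, ae_liminf h] with ω h1 h2
  rw [limsup_congr (logMQ_div_eventually ω), liminf_congr (logMQ_div_eventually ω)]
  exact ⟨h1, h2⟩

/-- an almost sure statement about the upper limit is a statement about `L` -/
lemma ae_iff (h : Fair P Q) (p : ℝ → Prop) :
    (∀ᵐ ω ∂P, p (limsup (fun n : ℕ => Real.log (MQ (Q ω) n) / n) atTop)) ↔ p MS.L := by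
  have := h.isProb
  constructor
  · intro h1
    obtain ⟨ω, h2, h3, -⟩ := (h1.and (ae_MQ h)).exists
    rwa [h3] at h2
  · intro h1
    filter_upwards [ae_MQ h] with ω h2
    rw [h2.1]; exact h1

end Pool.Agent.Helper42.RP
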