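import Pool.Agent.Helper42.RP.Second

/-! The Borel-Cantelli lemma for systems of weights. -/

namespace Pool.Agent.Helper42.RP

open Finset Filter

namespace Sys
variable {S : Sys} {c η : ℝ}

/-- `n` is large enough. -/
def Big (η : ℝ) (n : ℕ) : Prop :=
  Real.sqrt n + Real.log n < η ^ 2 / 4 * n / (1 + 2 * Real.log n) ∧
    Real.log n / 2 ≤ (1 - Real.log 2) * Real.sqrt n

lemma big_eventually (hη : 0 < η) : ∀ᶠ n : ℕ in atTop, Big η n := by
  have h1 : Tendsto (fun x : ℝ => (Real.sqrt x + Real.log x) * (1 + 2 * Real.log x) / x)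
      atTop (nhds 0) := by
    have hlog : ∀ k : ℕ, Tendsto (fun x : ℝ => Real.log x ^ k / Real.sqrt x) atTop (nhds 0) := by
      intro k
      have := isLittleO_log_rpow_rpow_atTop (s := 1 / 2) (k : ℝ) (by norm_num)
      have h2 := this.tendsto_div_nhds_zero
      refine h2.congr fun x => ?_
      rw [Real.rpow_natCast, Real.sqrt_eq_rpow]
    have hinv : Tendsto (fun x : ℝ => 1 / Real.sqrt x) atTop (nhds 0) := by
      simpa using hlog 0
    have e1 : Tendsto (fun x : ℝ => (1 + Real.log x ^ 1 / Real.sqrt x) *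
        (1 / Real.sqrt x + 2 * (Real.log x ^ 1 / Real.sqrt x))) atTop (nhds ((1 + 0) * (0 + 2 * 0))) :=
      (tendsto_const_nhds.add (hlog 1)).mul (hinv.add (tendsto_const_nhds.mul (hlog 1)))
    simp only [add_zero, mul_zero] at e1
    refine e1.congr' ?_
    filter_upwards [eventually_gt_atTop 0] with x hx
    have hs : 0 < Real.sqrt x := Real.sqrt_pos.2 hx
    have hxx : x = Real.sqrt x * Real.sqrt x := (Real.mul_self_sqrt hx.le).symm
    rw [pow_one]
    conv_rhs => rw [show ((Real.sqrt x + Real.log x) * (1 + 2 * Real.log x) / x) =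
      (Real.sqrt x + Real.log x) * (1 + 2 * Real.log x) / (Real.sqrt x * Real.sqrt x) by
        rw [← hxx]]
    field_simp
  have h2 : Tendsto (fun x : ℝ => Real.log x / Real.sqrt x) atTop (nhds 0) := by
    have := isLittleO_log_rpow_atTop (r := 1 / 2) (by norm_num)
    refine this.tendsto_div_nhds_zero.congr fun x => ?_
    rw [Real.sqrt_eq_rpow]
  have hl2 : Real.log 2 < 1 := by have := Real.log_two_lt_d9; linarith
  have h3 := (h1.eventually_lt_const (u := η ^ 2 / 4) (by positivity))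
  have h4 := (h2.eventually_lt_const (u := 2 * (1 - Real.log 2)) (by linarith))
  have h5 : ∀ᶠ x : ℝ in atTop, Real.sqrt x + Real.log x < η ^ 2 / 4 * x / (1 + 2 * Real.log x) ∧
      Real.log x / 2 ≤ (1 - Real.log 2) * Real.sqrt x := by
    filter_upwards [h3, h4, eventually_gt_atTop 1] with x a b hx
    have hx0 : 0 < x := by linarith
    have hlx : 0 < Real.log x := Real.log_pos hx
    have hs : 0 < Real.sqrt x := Real.sqrt_pos.2 hx0
    constructor
    · rw [div_lt_iff₀ hx0] at a
      rw [lt_div_iff₀ (by linarith)]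
      exact a
    · rw [div_lt_iff₀ hs] at b
      linarith
  exact tendsto_natCast_atTop_atTop.eventually h5

/-- Overlaps of heavy sets. -/
lemma ov_card {n m : ℕ} (hη : 0 < η) (hm : 0 < m) (hmn : m < n) (hb : Big η n)
    (hP : 0 < S.P c n) (hk : S.kap c n ≤ 1 + 2 * Real.log n)
    (hne : (S.Hv c η n ∩ S.Hv c η m).Nonempty) :
    ((S.Hv c η n ∩ S.Hv c η m).card : ℝ) * (η ^ 2 / 4 * ((n : ℝ) / Nat.gcd n m)) ≤ S.kap c n := by
  have hn : 0 < n := by omega
  have hn' : (0 : ℝ) < n := Nat.cast_pos.2 hn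
  have hκ := one_le_kap hP
  have hκ0 : 0 < S.kap c n := by linarith
  have hg : 0 < Nat.gcd n m := Nat.gcd_pos_of_pos_left _ hn
  have hg' : (0 : ℝ) < Nat.gcd n m := Nat.cast_pos.2 hg
  have hgn : ((Nat.gcd n m : ℕ) : ℝ) ≤ n := Nat.cast_le.2 (Nat.gcd_le_left _ hn)
  have hg1 : (1 : ℝ) ≤ Nat.gcd n m := by exact_mod_cast hg
  set g : ℝ := (Nat.gcd n m : ℝ) with hgdef
  have hcard : ((S.Hv c η n ∩ S.Hv c η m).card : ℝ) * (η ^ 2 / 4 * n / S.kap c n) ≤
      g * Real.log 2 + Real.log (n / g) := by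
    refine le_trans ?_ (S.ov m n hm hmn)
    calc ((S.Hv c η n ∩ S.Hv c η m).card : ℝ) * (η ^ 2 / 4 * n / S.kap c n)
        = ∑ p ∈ S.Hv c η n ∩ S.Hv c η m, η ^ 2 / 4 * n / S.kap c n := by
          rw [sum_const, nsmul_eq_mul]
      _ ≤ ∑ p ∈ S.Hv c η n ∩ S.Hv c η m, S.w n p := by
          apply sum_le_sum
          intro p hp
          rw [mem_inter] at hp
          have := hp.1
          unfold Hv at this
          rw [mem_filter] at this
          exact this.2
      _ ≤ _ := by
          apply sum_le_sum_of_subset_of_nonneg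
          · exact inter_subset_inter (hv_sub n) (hv_sub m)
          · intro p _ _; exact S.nn n p
  have hlogn : 0 ≤ Real.log n := Real.log_natCast_nonneg n
  have hl2 : 0 < Real.log 2 := Real.log_pos (by norm_num)
  have hl21 : Real.log 2 < 1 := by have := Real.log_two_lt_d9; linarith
  have hc1 : (1 : ℝ) ≤ ((S.Hv c η n ∩ S.Hv c η m).card : ℝ) := by
    exact_mod_cast hne.card_pos
  have hlow : η ^ 2 / 4 * n / (1 + 2 * Real.log n) ≤ g * Real.log 2 + Real.log (n / g) := by
    have h1 : η ^ 2 / 4 * n / (1 + 2 * Real.log n) ≤ η ^ 2 / 4 * n / S.kap c n :=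
      div_le_div_of_nonneg_left (by positivity) hκ0 hk
    have h2 : η ^ 2 / 4 * n / S.kap c n ≤
        ((S.Hv c η n ∩ S.Hv c η m).card : ℝ) * (η ^ 2 / 4 * n / S.kap c n) :=
      le_mul_of_one_le_left (by positivity) hc1
    linarith
  have hgs : Real.sqrt n ≤ g := by
    by_contra hcon
    push Not at hcon
    have h1 : Real.log (n / g) ≤ Real.log n := by
      apply Real.log_le_log (by positivity)
      exact div_le_self hn'.le hg1
    have h2 : g * Real.log 2 ≤ Real.sqrt n := by
      calc g * Real.log 2 ≤ Real.sqrt n * 1 :=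
            mul_le_mul hcon.le hl21.le hl2.le (Real.sqrt_nonneg _)
        _ = _ := mul_one _
    have := hb.1
    linarith
  have hlg : Real.log (n / g) ≤ (1 - Real.log 2) * g := by
    have hs : 0 < Real.sqrt n := Real.sqrt_pos.2 hn'
    have h1 : Real.log (n / g) ≤ Real.log (Real.sqrt n) := by
      apply Real.log_le_log (by positivity)
      rw [div_le_iff₀ hg']
      calc (n : ℝ) = Real.sqrt n * Real.sqrt n := (Real.mul_self_sqrt hn'.le).symm
        _ ≤ _ := mul_le_mul_of_nonneg_left hgs hs.le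
    rw [Real.log_sqrt hn'.le] at h1
    have h2 := hb.2
    have h3 : (1 - Real.log 2) * Real.sqrt n ≤ (1 - Real.log 2) * g :=
      mul_le_mul_of_nonneg_left hgs (by linarith)
    linarith
  have hfin : ((S.Hv c η n ∩ S.Hv c η m).card : ℝ) * (η ^ 2 / 4 * n / S.kap c n) ≤ g := by
    linarith
  have e1 : ((S.Hv c η n ∩ S.Hv c η m).card : ℝ) * (η ^ 2 / 4 * n / S.kap c n) =
      ((S.Hv c η n ∩ S.Hv c η m).card : ℝ) * (η ^ 2 / 4 * (n / g)) * g / S.kap c n := by
    field_simp
  rw [e1, div_le_iff₀ hκ0, mul_comm g] at hfin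
  exact le_of_mul_le_mul_right hfin hg'

/-- The bound for pairs. -/
lemma pair_bound {n m : ℕ} (hη : 0 < η) (hm : 0 < m) (hmn : m < n) (hb : Big η n)
    (hP : 0 < S.P c n) (hPm : 0 < S.P c m) (hk : S.kap c n ≤ 1 + 2 * Real.log n) :
    S.rho c η n * S.rho c η m * cp (S.T n ∪ S.T m)
      (fun U => S.gam c η n (U ∩ S.T n) ∧ S.gam c η m (U ∩ S.T m)) ≤
    S.q c η n * S.q c η m +
      Real.exp 1 * Real.exp (-(η ^ 2 / 16 * ((n : ℝ) / Nat.gcd n m))) * S.q c η m := by
  have hn : 0 < n := by omega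
  have hr0 := rho_nonneg hn hη hP
  have hr1 := rho_le_one hn hη hP
  have hs0 := rho_nonneg hm hη hPm
  have hqm := q_pos hm hη hPm
  have hqn := q_pos hn hη hP
  have hrn := rho_mul hn hη hP
  have hrm := rho_mul hm hη hPm
  have hcp0 := cp_nonneg (S.T n ∪ S.T m)
      (fun U => S.gam c η n (U ∩ S.T n) ∧ S.gam c η m (U ∩ S.T m))
  rcases (S.Hv c η n ∩ S.Hv c η m).eq_empty_or_nonempty with he | hne
  · have h1 := pair_le (S := S) (c := c) (η := η) n m
    rw [he, card_empty, pow_zero, one_mul] at h1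
    have h2 : S.rho c η n * S.rho c η m * cp (S.T n ∪ S.T m)
      (fun U => S.gam c η n (U ∩ S.T n) ∧ S.gam c η m (U ∩ S.T m)) ≤
        S.rho c η n * S.rho c η m * (S.P' c η n * S.P' c η m) :=
      mul_le_mul_of_nonneg_left h1 (mul_nonneg hr0 hs0)
    have h3 : S.rho c η n * S.rho c η m * (S.P' c η n * S.P' c η m) =
        S.q c η n * S.q c η m := by rw [← hrn, ← hrm]; ring
    have h4 : 0 ≤ Real.exp 1 * Real.exp (-(η ^ 2 / 16 * ((n : ℝ) / Nat.gcd n m))) * S.q c η m := by
      positivity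
    linarith
  · have hov := ov_card hη hm hmn hb hP hk hne
    have hg : 0 < Nat.gcd n m := Nat.gcd_pos_of_pos_left _ hn
    set a : ℝ := (n : ℝ) / Nat.gcd n m with ha
    have ha0 : 0 < a := div_pos (Nat.cast_pos.2 hn) (Nat.cast_pos.2 hg)
    have hc1 : (1 : ℝ) ≤ ((S.Hv c η n ∩ S.Hv c η m).card : ℝ) := by
      exact_mod_cast hne.card_pos
    have hak : η ^ 2 / 4 * a ≤ S.kap c n := by
      refine le_trans ?_ hov
      exact le_mul_of_one_le_left (by positivity) hc1
    have hqq : 0 ≤ S.q c η n * S.q c η m := by positivity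
    by_cases hsmall : η ^ 2 / 4 * a ≤ 4
    · have h1 := pair_le' (S := S) (c := c) (η := η) n m
      have h2 : S.rho c η n * S.rho c η m * cp (S.T n ∪ S.T m)
        (fun U => S.gam c η n (U ∩ S.T n) ∧ S.gam c η m (U ∩ S.T m)) ≤
          1 * S.rho c η m * S.P' c η m :=
        mul_le_mul (mul_le_mul_of_nonneg_right hr1 hs0) h1 hcp0 (by rw [one_mul]; exact hs0)
      rw [one_mul, hrm] at h2
      have h3 : 1 ≤ Real.exp 1 * Real.exp (-(η ^ 2 / 16 * a)) := by
        rw [← Real.exp_add]
        apply Real.one_le_exp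
        linarith
      have h4 := mul_le_mul_of_nonneg_right h3 hqm.le
      linarith
    · push Not at hsmall
      have h1 := pair_le (S := S) (c := c) (η := η) n m
      have h2 : S.rho c η n * S.rho c η m * cp (S.T n ∪ S.T m)
        (fun U => S.gam c η n (U ∩ S.T n) ∧ S.gam c η m (U ∩ S.T m)) ≤
          S.rho c η n * S.rho c η m *
            (2 ^ (S.Hv c η n ∩ S.Hv c η m).card * S.P' c η n * S.P' c η m) :=
        mul_le_mul_of_nonneg_left h1 (mul_nonneg hr0 hs0)
      have h3 : S.rho c η n * S.rho c η m *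
            (2 ^ (S.Hv c η n ∩ S.Hv c η m).card * S.P' c η n * S.P' c η m) =
          2 ^ (S.Hv c η n ∩ S.Hv c η m).card * S.q c η n * S.q c η m := by
        rw [← hrn, ← hrm]; ring
      have hcard : ((S.Hv c η n ∩ S.Hv c η m).card : ℝ) ≤ S.kap c n / 4 := by
        have h5 : ((S.Hv c η n ∩ S.Hv c η m).card : ℝ) * 4 ≤
            ((S.Hv c η n ∩ S.Hv c η m).card : ℝ) * (η ^ 2 / 4 * a) :=
          mul_le_mul_of_nonneg_left hsmall.le (by linarith)
        linarith
      have hpow : (2 : ℝ) ^ (S.Hv c η n ∩ S.Hv c η m).card ≤ Real.exp (S.kap c n / 4) := by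
        rw [← Real.rpow_natCast, Real.rpow_def_of_pos (by norm_num)]
        apply Real.exp_le_exp.2
        have hl21 : Real.log 2 < 1 := by have := Real.log_two_lt_d9; linarith
        have hl2 : 0 < Real.log 2 := Real.log_pos (by norm_num)
        nlinarith
      have hqe : S.q c η n ≤ Real.exp (-(S.kap c n / 2)) := min_le_right _ _
      have h6 : 2 ^ (S.Hv c η n ∩ S.Hv c η m).card * S.q c η n * S.q c η m ≤
          Real.exp (S.kap c n / 4) * Real.exp (-(S.kap c n / 2)) * S.q c η m := by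
        apply mul_le_mul_of_nonneg_right _ hqm.le
        exact mul_le_mul hpow hqe hqn.le (Real.exp_pos _).le
      have h7 : Real.exp (S.kap c n / 4) * Real.exp (-(S.kap c n / 2)) ≤
          Real.exp 1 * Real.exp (-(η ^ 2 / 16 * a)) := by
        rw [← Real.exp_add, ← Real.exp_add]
        apply Real.exp_le_exp.2
        linarith
      have h8 := mul_le_mul_of_nonneg_right h7 hqm.le
      linarith

end Sys

end Pool.Agent.Helper42.RP
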